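import Mathlib

/-!
MP_c4077f_co: `α`-EFR allocations from round robin in which the surplus goods are handed out in a last,
partial round to the agents that pick last. If every agent's values for single goods lie within a factor
`ρ` of each other (the scale may depend on the agent), then for `ρ ≥ 2` there is a `4(ρ-1)/ρ^2`-EFR
allocation and, for `m ≥ q n` goods, a `q/(q+ρ-2)`-EFR allocation; if `m ≤ k n` and `ρ ≤ 2 + 1/(k-1)`
there is an (exactly) EFR allocation. The general statement has a condition on the size of the largest,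
`n`-th, `2n`-th, ... largest value of each agent and allows zero values.
-/

namespace Pool.Agent.Results.MP_c4077f_co.BoundedRatio

open Finset

/-- The bundle of agent `j` under the assignment `A` of goods to agents. -/
def bundle {n m : ℕ} (A : Fin m → Fin n) (j : Fin n) : Finset (Fin m) :=
  univ.filter (fun g => A g = j)

/-- `A` is `α`-EFR: for all agents `i`, `j` with a nonempty bundle `A_j`, agent `i` values its own
bundle at least `α` times the average over `g ∈ A_j` of its value for `A_j` without `g`. -/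
def IsEFR {n m : ℕ} (v : Fin n → Fin m → ℝ) (α : ℝ) (A : Fin m → Fin n) : Prop :=
  ∀ i j : Fin n, (bundle A j).Nonempty →
    α * ((∑ g ∈ bundle A j, ∑ h ∈ (bundle A j).erase g, v i h) / ((bundle A j).card : ℝ))
      ≤ ∑ g ∈ bundle A i, v i g

/-- Sequential picking: picks are made in the order of an injective key, each pick takes a best
remaining good. -/
lemma picking {S G : Type*} [DecidableEq S] [DecidableEq G] [Nonempty G] (u : S → G → ℝ)
    (key : S → ℕ) :
    ∀ (N : ℕ) (P : Finset S) (T : Finset G), P.card = N → T.card = N →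
      (∀ s ∈ P, ∀ t ∈ P, key s = key t → s = t) →
      ∃ σ : S → G, (∀ s ∈ P, σ s ∈ T) ∧ (∀ s ∈ P, ∀ t ∈ P, σ s = σ t → s = t) ∧
        (∀ g ∈ T, ∃ s ∈ P, σ s = g) ∧
        ∀ s ∈ P, ∀ t ∈ P, key s ≤ key t → u s (σ t) ≤ u s (σ s) := by
  intro N
  induction N with
  | zero =>
    intro P T hP hT _
    rw [Finset.card_eq_zero] at hP hT
    subst hP; subst hT
    exact ⟨fun _ => Classical.arbitrary G, by simp, by simp, by simp, by simp⟩
  | succ N ih =>
    intro P T hP hT hinj
    have hPne : P.Nonempty := Finset.card_pos.1 (by omega)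
    have hTne : T.Nonempty := Finset.card_pos.1 (by omega)
    obtain ⟨s0, hs0, hmin⟩ := Finset.exists_min_image P key hPne
    obtain ⟨g0, hg0, hmax⟩ := Finset.exists_max_image T (u s0) hTne
    obtain ⟨σ', h1, h2, h3, h4⟩ := ih (P.erase s0) (T.erase g0)
      (by rw [Finset.card_erase_of_mem hs0]; omega)
      (by rw [Finset.card_erase_of_mem hg0]; omega)
      (fun s hs t ht => hinj s (Finset.mem_of_mem_erase hs) t (Finset.mem_of_mem_erase ht))
    refine ⟨Function.update σ' s0 g0, ?_, ?_, ?_, ?_⟩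
    · intro s hs
      by_cases h : s = s0
      · subst h; simpa using hg0
      · rw [Function.update_of_ne h]
        exact Finset.mem_of_mem_erase (h1 s (Finset.mem_erase.2 ⟨h, hs⟩))
    · intro s hs t ht hst
      by_cases h : s = s0
      · by_cases h' : t = s0
        · rw [h, h']
        · exfalso
          rw [h, Function.update_self, Function.update_of_ne h'] at hst
          have := h1 t (Finset.mem_erase.2 ⟨h', ht⟩)
          rw [← hst] at this
          exact Finset.notMem_erase _ _ this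
      · by_cases h' : t = s0
        · exfalso
          rw [h', Function.update_self, Function.update_of_ne h] at hst
          have := h1 s (Finset.mem_erase.2 ⟨h, hs⟩)
          rw [hst] at this
          exact Finset.notMem_erase _ _ this
        · rw [Function.update_of_ne h, Function.update_of_ne h'] at hst
          exact h2 s (Finset.mem_erase.2 ⟨h, hs⟩) t (Finset.mem_erase.2 ⟨h', ht⟩) hst
    · intro g hg
      by_cases h : g = g0
      · exact ⟨s0, hs0, by rw [Function.update_self, h]⟩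
      · obtain ⟨s, hs, hsg⟩ := h3 g (Finset.mem_erase.2 ⟨h, hg⟩)
        refine ⟨s, Finset.mem_of_mem_erase hs, ?_⟩
        rw [Function.update_of_ne (Finset.ne_of_mem_erase hs), hsg]
    · intro s hs t ht hst
      by_cases h : s = s0
      · by_cases h' : t = s0
        · rw [h, h']
        · rw [h, Function.update_self, Function.update_of_ne h']
          exact hmax _ (Finset.mem_of_mem_erase (h1 t (Finset.mem_erase.2 ⟨h', ht⟩)))
      · by_cases h' : t = s0
        · exfalso
          rw [h'] at hst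
          exact h (hinj s hs s0 hs0 (le_antisymm hst (hmin s hs)))
        · rw [Function.update_of_ne h, Function.update_of_ne h']
          exact h4 s (Finset.mem_erase.2 ⟨h, hs⟩) t (Finset.mem_erase.2 ⟨h', ht⟩) hst

lemma sum_sum_erase {G : Type*} [DecidableEq G] (S : Finset G) (w : G → ℝ) :
    ∑ g ∈ S, ∑ h ∈ S.erase g, w h = ((S.card : ℝ) - 1) * ∑ h ∈ S, w h := by
  have h1 : ∀ g ∈ S, ∑ h ∈ S.erase g, w h = (∑ h ∈ S, w h) - w g := by
    intro g hg
    have := Finset.sum_erase_add S w hg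
    linarith
  rw [Finset.sum_congr rfl h1, Finset.sum_sub_distrib, Finset.sum_const, nsmul_eq_mul]
  ring

/-- The number of picks of agent `b`. -/
def cnt (n m : ℕ) (b : Fin n) : ℕ := m / n + if n - m % n ≤ (b : ℕ) then 1 else 0

lemma sum_cnt {n m : ℕ} (hn : 0 < n) : ∑ b : Fin n, cnt n m b = m := by
  unfold cnt
  rw [Finset.sum_add_distrib, Finset.sum_const, Finset.card_univ, Fintype.card_fin, smul_eq_mul]
  have h1 : ∑ b : Fin n, (if n - m % n ≤ (b : ℕ) then 1 else 0) = m % n := by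
    rw [Fin.sum_univ_eq_sum_range (fun b => if n - m % n ≤ b then 1 else 0) n]
    rw [← Finset.card_filter]
    have : (Finset.range n).filter (fun b => n - m % n ≤ b) = Finset.Ico (n - m % n) n := by
      ext b
      simp only [Finset.mem_filter, Finset.mem_range, Finset.mem_Ico]
      tauto
    rw [this, Nat.card_Ico]
    have := Nat.mod_lt m hn
    omega
  rw [h1]
  exact Nat.div_add_mod m n

lemma cnt_mono {n m : ℕ} {i j : Fin n} (h : i ≤ j) : cnt n m i ≤ cnt n m j := by
  unfold cnt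
  have : (i : ℕ) ≤ j := h
  split_ifs <;> omega

lemma cnt_le_succ {n m : ℕ} (i j : Fin n) : cnt n m j ≤ cnt n m i + 1 := by
  unfold cnt
  split_ifs <;> omega

lemma cnt_bounds {n m t : ℕ} (hn : 0 < n) (j : Fin n) (ht : cnt n m j = t + 1) :
    t * n < m ∧ m < (t + 2) * n := by
  unfold cnt at ht
  have hdm := Nat.div_add_mod m n
  have hml := Nat.mod_lt m hn
  have hj := j.isLt
  obtain ⟨q, hq⟩ : ∃ q, q = m / n := ⟨_, rfl⟩
  obtain ⟨r, hr⟩ : ∃ r, r = m % n := ⟨_, rfl⟩
  rw [← hq, ← hr] at hdm ht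
  rw [← hr] at hml
  have e1 : n * q = q * n := Nat.mul_comm _ _
  split_ifs at ht with h
  · have hqt : q = t := by omega
    subst hqt
    have e2 : (q + 2) * n = q * n + n + n := by ring
    constructor <;> omega
  · have hqt : q = t + 1 := by omega
    subst hqt
    have e2 : (t + 2) * n = (t + 1) * n + n := by ring
    have e3 : (t + 1) * n = t * n + n := by ring
    constructor <;> omega

theorem main (n m : ℕ) (hn : 0 < n) (v : Fin n → Fin m → ℝ) (hv : ∀ i g, 0 ≤ v i g)
    (α : ℝ) (M : Fin n → ℝ) (z : Fin n → ℕ → ℝ) (hα0 : 0 ≤ α) (hα1 : α ≤ 1)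
    (hM : ∀ i g, v i g ≤ M i)
    (hz : ∀ i a, min ((a + 1) * n) m ≤ (univ.filter (fun g => z i a ≤ v i g)).card)
    (hα : ∀ i, ∀ t : ℕ, t * n < m → m < (t + 2) * n →
      α * ((t : ℝ) * (M i + ∑ a ∈ range t, z i a)) ≤ ((t : ℝ) + 1) * ∑ a ∈ range (t + 1), z i a) :
    ∃ A : Fin m → Fin n, IsEFR v α A := by
  classical
  rcases Nat.eq_zero_or_pos m with hm | hm
  · subst hm
    exact ⟨fun g => g.elim0, fun i j ⟨g, _⟩ => g.elim0⟩
  have : Nonempty (Fin m) := ⟨⟨0, hm⟩⟩
  set P : Finset (Σ _ : Fin n, ℕ) := (univ : Finset (Fin n)).sigma (fun b => range (cnt n m b))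
    with hP
  have hPcard : P.card = m := by
    rw [hP, Finset.card_sigma]
    simp only [Finset.card_range]
    exact sum_cnt hn
  have hPmem : ∀ (j : Fin n) (a : ℕ), (⟨j, a⟩ : Σ _ : Fin n, ℕ) ∈ P ↔ a < cnt n m j := by
    intro j a
    simp [hP]
  set key : (Σ _ : Fin n, ℕ) → ℕ := fun s => s.2 * n + s.1 with hkey
  have hkinj : ∀ s ∈ P, ∀ t ∈ P, key s = key t → s = t := by
    rintro ⟨b, a⟩ _ ⟨b', a'⟩ _ hst
    simp only [hkey] at hst
    have e1 : (b : ℕ) = b' := by
      have := congrArg (fun z => z % n) hst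
      simpa [Nat.mul_add_mod', Nat.mod_eq_of_lt b.isLt, Nat.mod_eq_of_lt b'.isLt] using this
    have e2 : a = a' := by
      rw [e1] at hst
      exact Nat.eq_of_mul_eq_mul_right hn (Nat.add_right_cancel hst)
    rw [Fin.ext e1, e2]
  obtain ⟨σ, h1, h2, h3, h4⟩ := picking (fun (s : Σ _ : Fin n, ℕ) g => v s.1 g) key m P
    (univ : Finset (Fin m)) hPcard (by simp) hkinj
  have h3' : ∀ g : Fin m, ∃ s ∈ P, σ s = g := fun g => h3 g (mem_univ g)
  choose τ hτP hτ using h3'
  have hbundle : ∀ j : Fin n, bundle (fun g => (τ g).1) j =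
      (range (cnt n m j)).image (fun a => σ ⟨j, a⟩) := by
    intro j
    ext g
    simp only [bundle, Finset.mem_filter, Finset.mem_univ, true_and, Finset.mem_image,
      Finset.mem_range]
    constructor
    · intro h
      refine ⟨(τ g).2, ?_, ?_⟩
      · have := hτP g
        rw [← h]
        exact (hPmem _ _).1 this
      · rw [← h]
        exact hτ g
    · rintro ⟨a, ha, rfl⟩
      have := h2 _ (hτP (σ ⟨j, a⟩)) ⟨j, a⟩ ((hPmem _ _).2 ha) (hτ _)
      rw [this]
  have hinjσ : ∀ j : Fin n, Set.InjOn (fun a => σ ⟨j, a⟩) (range (cnt n m j) : Finset ℕ) := by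
    intro j a ha a' ha' h
    have ha1 : a < cnt n m j := by simpa using ha
    have ha2 : a' < cnt n m j := by simpa using ha'
    have := h2 ⟨j, a⟩ ((hPmem _ _).2 ha1) ⟨j, a'⟩ ((hPmem _ _).2 ha2) h
    simpa using this
  have hcard : ∀ j : Fin n, (bundle (fun g => (τ g).1) j).card = cnt n m j := by
    intro j
    rw [hbundle, Finset.card_image_of_injOn (hinjσ j), Finset.card_range]
  have hsum : ∀ (i j : Fin n), ∑ g ∈ bundle (fun g => (τ g).1) j, v i g =
      ∑ a ∈ range (cnt n m j), v i (σ ⟨j, a⟩) := by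
    intro i j
    rw [hbundle, Finset.sum_image (hinjσ j)]
  -- comparison of picks
  have hcmp : ∀ (i j : Fin n) (a b : ℕ), a < cnt n m i → b < cnt n m j →
      a * n + (i : ℕ) ≤ b * n + (j : ℕ) → v i (σ ⟨j, b⟩) ≤ v i (σ ⟨i, a⟩) := by
    intro i j a b ha hb hab
    exact h4 ⟨i, a⟩ ((hPmem _ _).2 ha) ⟨j, b⟩ ((hPmem _ _).2 hb) hab
  -- lower bound for the picks
  have hlow : ∀ (i : Fin n) (a : ℕ), a < cnt n m i → z i a ≤ v i (σ ⟨i, a⟩) := by
    intro i a ha
    by_contra hcon
    push Not at hcon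
    have hmem : (⟨i, a⟩ : Σ _ : Fin n, ℕ) ∈ P := (hPmem _ _).2 ha
    have hsub : univ.filter (fun g => z i a ≤ v i g) ⊆
        (P.filter (fun t => key t < key ⟨i, a⟩)).image σ := by
      intro g hg
      rw [Finset.mem_filter] at hg
      obtain ⟨t, htP, rfl⟩ := h3 g (mem_univ g)
      rw [Finset.mem_image]
      refine ⟨t, ?_, rfl⟩
      rw [Finset.mem_filter]
      refine ⟨htP, ?_⟩
      by_contra hk
      have := h4 ⟨i, a⟩ hmem t htP (not_lt.1 hk)
      have h5 : v i (σ t) ≤ v i (σ ⟨i, a⟩) := this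
      linarith [hg.2]
    have hc1 := (Finset.card_le_card hsub).trans Finset.card_image_le
    have hc2 : (P.filter (fun t => key t < key ⟨i, a⟩)).card ≤ a * n + i := by
      have := Finset.card_le_card_of_injOn (s := P.filter (fun t => key t < key ⟨i, a⟩))
        (t := range (a * n + i)) key
        (fun t ht => by
          have h6 : t ∈ P.filter (fun t => key t < key ⟨i, a⟩) := by simpa using ht
          have h7 : key t < a * n + i := (Finset.mem_filter.1 h6).2
          simpa using h7)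
        (fun s hs t ht hst => by
          have h6 : s ∈ P.filter (fun t => key t < key ⟨i, a⟩) := by simpa using hs
          have h7 : t ∈ P.filter (fun t => key t < key ⟨i, a⟩) := by simpa using ht
          exact hkinj s (Finset.mem_filter.1 h6).1 t (Finset.mem_filter.1 h7).1 hst)
      rwa [Finset.card_range] at this
    have hc3 : (P.filter (fun t => key t < key ⟨i, a⟩)).card < m := by
      rw [← hPcard]
      apply Finset.card_lt_card
      refine Finset.ssubset_iff_of_subset (Finset.filter_subset _ _) |>.2 ⟨⟨i, a⟩, hmem, ?_⟩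
      simp
    have hc4 := hz i a
    have hi := i.isLt
    have e1 : (a + 1) * n = a * n + n := by ring
    rcases le_total ((a + 1) * n) m with h | h
    · rw [min_eq_left h] at hc4
      omega
    · rw [min_eq_right h] at hc4
      omega
  refine ⟨fun g => (τ g).1, ?_⟩
  intro i j hne
  rw [sum_sum_erase, hcard, hsum, hsum]
  have hcpos : 0 < cnt n m j := by
    rw [← hcard j]; exact Finset.card_pos.2 hne
  have hcposR : (0 : ℝ) < (cnt n m j : ℝ) := by exact_mod_cast hcpos
  rw [← mul_div_assoc, div_le_iff₀ hcposR]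
  -- nonnegativity
  have hfnn : ∀ (j : Fin n) (a : ℕ), 0 ≤ v i (σ ⟨j, a⟩) := fun j a => hv i _
  rcases lt_trichotomy i j with hij | hij | hij
  · -- i < j
    have hcij : cnt n m i ≤ cnt n m j := cnt_mono hij.le
    have hcji := cnt_le_succ (n := n) (m := m) i j
    have hij' : (i : ℕ) < j := hij
    have hFG : ∑ a ∈ range (cnt n m i), v i (σ ⟨j, a⟩) ≤
        ∑ a ∈ range (cnt n m i), v i (σ ⟨i, a⟩) := by
      apply Finset.sum_le_sum
      intro a ha
      have ha' : a < cnt n m i := by simpa using ha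
      exact hcmp i j a a ha' (by omega) (by omega)
    have hGnn : 0 ≤ ∑ a ∈ range (cnt n m i), v i (σ ⟨j, a⟩) :=
      Finset.sum_nonneg fun a _ => hfnn j a
    rcases Nat.eq_or_lt_of_le hcij with he | hlt
    · rw [← he]
      rw [← he] at hcposR hcpos
      have hc1 : (1 : ℝ) ≤ (cnt n m i : ℝ) := by exact_mod_cast hcpos
      have s1 : α * (((cnt n m i : ℝ) - 1) * ∑ a ∈ range (cnt n m i), v i (σ ⟨j, a⟩)) ≤
          1 * (((cnt n m i : ℝ) - 1) * ∑ a ∈ range (cnt n m i), v i (σ ⟨j, a⟩)) :=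
        mul_le_mul_of_nonneg_right hα1 (mul_nonneg (by linarith) hGnn)
      have s2 : ((cnt n m i : ℝ) - 1) * ∑ a ∈ range (cnt n m i), v i (σ ⟨j, a⟩) ≤
          (cnt n m i : ℝ) * ∑ a ∈ range (cnt n m i), v i (σ ⟨j, a⟩) :=
        mul_le_mul_of_nonneg_right (by linarith) hGnn
      have s3 := mul_le_mul_of_nonneg_left hFG hcposR.le
      linarith
    · have he : cnt n m j = cnt n m i + 1 := by omega
      rw [he, Finset.sum_range_succ]
      push_cast
      have hlast : ∀ a ∈ range (cnt n m i), v i (σ ⟨j, cnt n m i⟩) ≤ v i (σ ⟨i, a⟩) := by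
        intro a ha
        have ha' : a < cnt n m i := by simpa using ha
        refine hcmp i j a _ ha' (by omega) ?_
        have : a * n ≤ cnt n m i * n := Nat.mul_le_mul_right _ ha'.le
        omega
      have hlast' : (cnt n m i : ℝ) * v i (σ ⟨j, cnt n m i⟩) ≤
          ∑ a ∈ range (cnt n m i), v i (σ ⟨i, a⟩) := by
        have := Finset.sum_le_sum hlast
        rwa [Finset.sum_const, Finset.card_range, nsmul_eq_mul] at this
      have hc0 : (0 : ℝ) ≤ (cnt n m i : ℝ) := Nat.cast_nonneg _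
      have s3 := mul_le_mul_of_nonneg_left hFG hc0
      have hnn2 : 0 ≤ (cnt n m i : ℝ) * ((∑ a ∈ range (cnt n m i), v i (σ ⟨j, a⟩)) +
          v i (σ ⟨j, cnt n m i⟩)) := mul_nonneg hc0 (add_nonneg hGnn (hfnn _ _))
      have s1 : α * ((cnt n m i : ℝ) * ((∑ a ∈ range (cnt n m i), v i (σ ⟨j, a⟩)) +
          v i (σ ⟨j, cnt n m i⟩))) ≤ 1 * ((cnt n m i : ℝ) *
          ((∑ a ∈ range (cnt n m i), v i (σ ⟨j, a⟩)) + v i (σ ⟨j, cnt n m i⟩))) :=
        mul_le_mul_of_nonneg_right hα1 hnn2
      have e1 : ((cnt n m i : ℝ) + 1 - 1) = (cnt n m i : ℝ) := by ring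
      rw [e1]
      nlinarith
  · -- i = j
    subst hij
    have hGnn : 0 ≤ ∑ a ∈ range (cnt n m i), v i (σ ⟨i, a⟩) :=
      Finset.sum_nonneg fun a _ => hfnn i a
    have hc1 : (1 : ℝ) ≤ (cnt n m i : ℝ) := by exact_mod_cast hcpos
    have s1 : α * (((cnt n m i : ℝ) - 1) * ∑ a ∈ range (cnt n m i), v i (σ ⟨i, a⟩)) ≤
        1 * (((cnt n m i : ℝ) - 1) * ∑ a ∈ range (cnt n m i), v i (σ ⟨i, a⟩)) :=
      mul_le_mul_of_nonneg_right hα1 (mul_nonneg (by linarith) hGnn)
    nlinarith
  · -- j < i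
    have hcji : cnt n m j ≤ cnt n m i := cnt_mono hij.le
    have hij' : (j : ℕ) < i := hij
    obtain ⟨t, ht⟩ : ∃ t, cnt n m j = t + 1 := ⟨cnt n m j - 1, by omega⟩
    obtain ⟨hb1, hb2⟩ := cnt_bounds hn j ht
    rw [ht, Finset.sum_range_succ']
    push_cast
    have e1 : ((t : ℝ) + 1 - 1) = (t : ℝ) := by ring
    rw [e1]
    set S : ℝ := ∑ a ∈ range t, v i (σ ⟨i, a⟩) with hS
    have hG : ∑ a ∈ range t, v i (σ ⟨j, a + 1⟩) ≤ S := by
      apply Finset.sum_le_sum
      intro a ha
      have ha' : a < t := by simpa using ha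
      refine hcmp i j a (a + 1) (by omega) (by omega) ?_
      have : (a + 1) * n = a * n + n := by ring
      have := i.isLt
      omega
    have hF : S + z i t ≤ ∑ a ∈ range (cnt n m i), v i (σ ⟨i, a⟩) := by
      have hsub : range (t + 1) ⊆ range (cnt n m i) := by
        apply Finset.range_subset_range.2
        omega
      have := Finset.sum_le_sum_of_subset_of_nonneg (f := fun a => v i (σ ⟨i, a⟩)) hsub
        (fun a _ _ => hfnn i a)
      rw [Finset.sum_range_succ] at this
      have hxl := hlow i t (by omega)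
      linarith
    have hSx : ∑ a ∈ range t, z i a ≤ S := by
      apply Finset.sum_le_sum
      intro a ha
      have ha' : a < t := by simpa using ha
      exact hlow i a (by omega)
    have hg0 : v i (σ ⟨j, 0⟩) ≤ M i := hM i _
    have ht0 : (0 : ℝ) ≤ t := Nat.cast_nonneg _
    have hineq := hα i t hb1 hb2
    rw [Finset.sum_range_succ] at hineq
    set Z : ℝ := ∑ a ∈ range t, z i a with hZ
    have s1 : α * ((t : ℝ) * ((∑ a ∈ range t, v i (σ ⟨j, a + 1⟩)) + v i (σ ⟨j, 0⟩))) ≤
        α * ((t : ℝ) * (S + M i)) := by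
      apply mul_le_mul_of_nonneg_left _ hα0
      apply mul_le_mul_of_nonneg_left _ ht0
      linarith
    have s2 : (S + z i t) * ((t : ℝ) + 1) ≤
        (∑ a ∈ range (cnt n m i), v i (σ ⟨i, a⟩)) * ((t : ℝ) + 1) :=
      mul_le_mul_of_nonneg_right hF (by linarith)
    have s3 : 0 ≤ (S - Z) * ((t : ℝ) + 1 - α * t) := by
      apply mul_nonneg (by linarith)
      have : α * t ≤ 1 * t := mul_le_mul_of_nonneg_right hα1 ht0
      linarith
    nlinarith

/-- the case of values within a factor `ρ` -/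
theorem ratio (n m : ℕ) (hn : 0 < n) (v : Fin n → Fin m → ℝ) (ρ : ℝ) (x : Fin n → ℝ) (α : ℝ)
    (hx : ∀ i, 0 < x i) (hv : ∀ i g, x i ≤ v i g ∧ v i g ≤ ρ * x i) (hα0 : 0 ≤ α) (hα1 : α ≤ 1)
    (hα : ∀ t : ℕ, t * n < m → m < (t + 2) * n → α * ((t : ℝ) * (t + ρ)) ≤ ((t : ℝ) + 1) ^ 2) :
    ∃ A : Fin m → Fin n, IsEFR v α A := by
  refine main n m hn v (fun i g => (hx i).le.trans (hv i g).1) α (fun i => ρ * x i)
    (fun i _ => x i) hα0 hα1 (fun i g => (hv i g).2) ?_ ?_
  · intro i a
    rw [Finset.filter_true_of_mem (fun g _ => (hv i g).1), Finset.card_univ, Fintype.card_fin]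
    exact min_le_right _ _
  · intro i t h1 h2
    rw [Finset.sum_const, Finset.sum_const, Finset.card_range, Finset.card_range, nsmul_eq_mul,
      nsmul_eq_mul]
    push_cast
    have := mul_le_mul_of_nonneg_left (hα t h1 h2) (hx i).le
    nlinarith

theorem result (n m : ℕ) (hn : 0 < n) (v : Fin n → Fin m → ℝ) (hv : ∀ i g, 0 ≤ v i g) :
    (∀ (α : ℝ) (M : Fin n → ℝ) (z : Fin n → ℕ → ℝ), 0 ≤ α → α ≤ 1 → (∀ i g, v i g ≤ M i) →
      (∀ i a, min ((a + 1) * n) m ≤ (univ.filter (fun g => z i a ≤ v i g)).card) →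
      (∀ i, ∀ t : ℕ, t * n < m → m < (t + 2) * n →
        α * (t * (M i + ∑ a ∈ range t, z i a)) ≤ (t + 1) * ∑ a ∈ range (t + 1), z i a) →
      ∃ A : Fin m → Fin n, IsEFR v α A) ∧
    ∀ (ρ : ℝ) (x : Fin n → ℝ), (∀ i, 0 < x i) → (∀ i g, x i ≤ v i g ∧ v i g ≤ ρ * x i) →
      (2 ≤ ρ → ∃ A : Fin m → Fin n, IsEFR v (4 * (ρ - 1) / ρ ^ 2) A) ∧
      (2 ≤ ρ → ∀ q : ℕ, 1 ≤ q → q * n ≤ m → ∃ A : Fin m → Fin n, IsEFR v (q / (q + ρ - 2)) A) ∧
      ∀ k : ℕ, 2 ≤ k → m ≤ k * n → ρ ≤ 2 + 1 / ((k : ℝ) - 1) →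
        ∃ A : Fin m → Fin n, IsEFR v 1 A := by
  refine ⟨fun α M z h0 h1 hM hz hα => main n m hn v hv α M z h0 h1 hM hz hα, ?_⟩
  intro ρ x hx hxv
  refine ⟨?_, ?_, ?_⟩
  · intro hρ
    have hρ0 : (0 : ℝ) < ρ ^ 2 := by positivity
    refine ratio n m hn v ρ x _ hx hxv ?_ ?_ ?_
    · apply div_nonneg _ hρ0.le
      linarith
    · rw [div_le_one hρ0]
      nlinarith [sq_nonneg (ρ - 2)]
    · intro t _ _
      rw [div_mul_eq_mul_div, div_le_iff₀ hρ0]
      nlinarith [sq_nonneg (ρ - (t : ℝ) * (ρ - 2))]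
  · intro hρ q hq hqm
    have hq1 : (1 : ℝ) ≤ (q : ℝ) := by exact_mod_cast hq
    have hden : (0 : ℝ) < q + ρ - 2 := by linarith
    refine ratio n m hn v ρ x _ hx hxv ?_ ?_ ?_
    · exact div_nonneg (by linarith) hden.le
    · rw [div_le_one hden]
      linarith
    · intro t _ ht2
      have hqt : q < t + 2 := by
        by_contra hcon
        push Not at hcon
        have := Nat.mul_le_mul_right n hcon
        omega
      have hqt' : (q : ℝ) ≤ (t : ℝ) + 1 := by
        have : q ≤ t + 1 := by omega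
        exact_mod_cast this
      have ht0 : (0 : ℝ) ≤ (t : ℝ) := Nat.cast_nonneg _
      rw [div_mul_eq_mul_div, div_le_iff₀ hden]
      -- q t (t + ρ) ≤ (t+1)^2 (q + ρ - 2)
      have e1 : (q : ℝ) * (t * (t + ρ)) ≤ q * ((t + 1) * (t + 1 + ρ - 2)) := by
        apply mul_le_mul_of_nonneg_left _ (by linarith)
        nlinarith
      have e2 : (q : ℝ) * ((t + 1) * (t + 1 + ρ - 2)) ≤ (t + 1) ^ 2 * (q + ρ - 2) := by
        have e3 : 0 ≤ ((t : ℝ) + 1) * (((t : ℝ) + 1 - q) * (ρ - 2)) :=
          mul_nonneg (by linarith) (mul_nonneg (by linarith) (by linarith))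
        nlinarith
      linarith
  · intro k hk hm hρ
    refine ratio n m hn v ρ x 1 hx hxv zero_le_one le_rfl ?_
    intro t ht1 _
    have htk : t < k := by
      by_contra hcon
      push Not at hcon
      have := Nat.mul_le_mul_right n hcon
      omega
    have hk1 : (0 : ℝ) < (k : ℝ) - 1 := by
      have : (2 : ℝ) ≤ (k : ℝ) := by exact_mod_cast hk
      linarith
    have ht0 : (0 : ℝ) ≤ (t : ℝ) := Nat.cast_nonneg _
    have htk' : (t : ℝ) ≤ (k : ℝ) - 1 := by
      have : (t : ℝ) + 1 ≤ (k : ℝ) := by exact_mod_cast htk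
      linarith
    have h1 : (t : ℝ) * (1 / ((k : ℝ) - 1)) ≤ 1 := by
      rw [mul_one_div, div_le_one hk1]
      exact htk'
    have h2 : (t : ℝ) * ρ ≤ (t : ℝ) * (2 + 1 / ((k : ℝ) - 1)) :=
      mul_le_mul_of_nonneg_left hρ ht0
    nlinarith

end Pool.Agent.Results.MP_c4077f_co.BoundedRatio
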