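import Mathlib

/-!
MP_c4077f_co: allocations of maximal Nash welfare (product of the agents' values) and envy up to a random
good. If the values of agent `i` for the goods of bundle `A_j` lie within a factor `y^2` of each other, then
`(1 - 1/s) v_i(A_j) ≤ (1 + (y^2-1)^2/(4 y^2 s)) v_i(A_i)` with `s = |A_j|`, and
`(1 - 1/s) v_i(A_j) ≤ (1+y^2)/(2y) v_i(A_i)` if `y ≤ 2 + √3`; the last bound is attained.
-/

namespace Pool.Agent.Results.MP_c4077f_co.NashWelfare

open Finset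

/-- The bundle of agent `j` under the assignment `A` of goods to agents. -/
def bundle {n m : ℕ} (A : Fin m → Fin n) (j : Fin n) : Finset (Fin m) :=
  univ.filter (fun g => A g = j)

/-- The value of agent `i` for its own bundle. -/
def own {n m : ℕ} (v : Fin n → Fin m → ℝ) (A : Fin m → Fin n) (i : Fin n) : ℝ :=
  ∑ g ∈ bundle A i, v i g

/-- The mean over `g ∈ A_j` of the value of agent `i` for `A_j` without `g`. -/
noncomputable def meanDel {n m : ℕ} (v : Fin n → Fin m → ℝ) (A : Fin m → Fin n) (i j : Fin n) : ℝ :=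
  (∑ g ∈ bundle A j, ∑ h ∈ (bundle A j).erase g, v i h) / ((bundle A j).card : ℝ)

/-- `A` is `α`-EFR. -/
def IsEFR {n m : ℕ} (v : Fin n → Fin m → ℝ) (α : ℝ) (A : Fin m → Fin n) : Prop :=
  ∀ i j : Fin n, (bundle A j).Nonempty → α * meanDel v A i j ≤ own v A i

/-- `A` has the largest product of values, and this product is positive. -/
def MaxNash {n m : ℕ} (v : Fin n → Fin m → ℝ) (A : Fin m → Fin n) : Prop :=
  0 < ∏ i, own v A i ∧ ∀ B : Fin m → Fin n, ∏ i, own v B i ≤ ∏ i, own v A i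

lemma sum_sum_erase {G : Type*} [DecidableEq G] (S : Finset G) (w : G → ℝ) :
    ∑ g ∈ S, ∑ h ∈ S.erase g, w h = ((S.card : ℝ) - 1) * ∑ h ∈ S, w h := by
  have h1 : ∀ g ∈ S, ∑ h ∈ S.erase g, w h = (∑ h ∈ S, w h) - w g := by
    intro g hg
    have := Finset.sum_erase_add S w hg
    linarith
  rw [Finset.sum_congr rfl h1, Finset.sum_sub_distrib, Finset.sum_const, nsmul_eq_mul]
  ring

lemma own_nonneg {n m : ℕ} {v : Fin n → Fin m → ℝ} (hv : ∀ i g, 0 ≤ v i g) (A : Fin m → Fin n)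
    (i : Fin n) : 0 ≤ own v A i := Finset.sum_nonneg fun g _ => hv i g

lemma own_pos {n m : ℕ} {v : Fin n → Fin m → ℝ} (hv : ∀ i g, 0 ≤ v i g) {A : Fin m → Fin n}
    (hA : MaxNash v A) (i : Fin n) : 0 < own v A i := by
  rcases eq_or_lt_of_le (own_nonneg hv A i) with h | h
  · exfalso
    have := hA.1
    rw [Finset.prod_eq_zero (Finset.mem_univ i) h.symm] at this
    exact lt_irrefl _ this
  · exact h

/-- moving one good from `j` to `i` -/
lemma transfer {n m : ℕ} {v : Fin n → Fin m → ℝ} (hv : ∀ i g, 0 ≤ v i g) {A : Fin m → Fin n}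
    (hA : MaxNash v A) {i j : Fin n} (hij : i ≠ j) {g : Fin m} (hg : g ∈ bundle A j) :
    v i g * (own v A j - v j g) ≤ own v A i * v j g := by
  classical
  have hgj : A g = j := (Finset.mem_filter.1 hg).2
  have hgi : g ∉ bundle A i := by
    intro h
    exact hij ((Finset.mem_filter.1 h).2.symm.trans hgj)
  set B : Fin m → Fin n := Function.update A g i with hB
  have hBi : bundle B i = insert g (bundle A i) := by
    ext h
    simp only [bundle, Finset.mem_filter, Finset.mem_univ, true_and, Finset.mem_insert, hB]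
    by_cases hh : h = g
    · subst hh; simp
    · rw [Function.update_of_ne hh]; simp [hh]
  have hBj : bundle B j = (bundle A j).erase g := by
    ext h
    simp only [bundle, Finset.mem_filter, Finset.mem_univ, true_and, Finset.mem_erase, hB]
    by_cases hh : h = g
    · subst hh; simp [hij]
    · rw [Function.update_of_ne hh]; simp [hh]
  have hBk : ∀ k, k ≠ i → k ≠ j → bundle B k = bundle A k := by
    intro k hki hkj
    ext h
    simp only [bundle, Finset.mem_filter, Finset.mem_univ, true_and, hB]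
    by_cases hh : h = g
    · subst hh
      rw [Function.update_self, hgj]
      constructor
      · intro h1; exact absurd h1.symm hki
      · intro h1; exact absurd h1.symm hkj
    · rw [Function.update_of_ne hh]
  have e1 : own v B i = v i g + own v A i := by
    unfold own
    rw [hBi, Finset.sum_insert hgi]
  have e2 : own v B j = own v A j - v j g := by
    unfold own
    rw [hBj]
    have := Finset.sum_erase_add (bundle A j) (v j) hg
    linarith
  have hjm : j ∈ (univ : Finset (Fin n)).erase i := Finset.mem_erase.2 ⟨hij.symm, Finset.mem_univ j⟩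
  have hprod : ∀ C : Fin m → Fin n, ∏ k, own v C k =
      own v C i * (own v C j * ∏ k ∈ ((univ : Finset (Fin n)).erase i).erase j, own v C k) := by
    intro C
    rw [Finset.mul_prod_erase _ (fun k => own v C k) hjm,
      Finset.mul_prod_erase _ (fun k => own v C k) (Finset.mem_univ i)]
  have hrest : ∏ k ∈ ((univ : Finset (Fin n)).erase i).erase j, own v B k =
      ∏ k ∈ ((univ : Finset (Fin n)).erase i).erase j, own v A k := by
    apply Finset.prod_congr rfl
    intro k hk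
    rw [Finset.mem_erase, Finset.mem_erase] at hk
    unfold own
    rw [hBk k hk.2.1 hk.1]
  have hpos : 0 < ∏ k ∈ ((univ : Finset (Fin n)).erase i).erase j, own v A k :=
    Finset.prod_pos fun k _ => own_pos hv hA k
  have hmax := hA.2 B
  rw [hprod B, hprod A, hrest, e1, e2, ← mul_assoc, ← mul_assoc] at hmax
  have := le_of_mul_le_mul_right hmax hpos
  nlinarith

/-- the sum inequality -/
lemma sum_le_one {n m : ℕ} {v : Fin n → Fin m → ℝ} (hv : ∀ i g, 0 ≤ v i g) {A : Fin m → Fin n}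
    (hA : MaxNash v A) {i j : Fin n} (hij : i ≠ j) :
    ∑ g ∈ bundle A j, v i g / (own v A i + v i g) ≤ 1 := by
  have hVj := own_pos hv hA j
  have hVi := own_pos hv hA i
  have h1 : ∑ g ∈ bundle A j, v i g / (own v A i + v i g) ≤
      ∑ g ∈ bundle A j, v j g / own v A j := by
    apply Finset.sum_le_sum
    intro g hg
    have h2 := transfer hv hA hij hg
    have h3 := hv i g
    rw [div_le_div_iff₀ (by linarith) hVj]
    nlinarith
  refine h1.trans (le_of_eq ?_)
  rw [← Finset.sum_div]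
  exact div_self hVj.ne'

lemma mean_eq {n m : ℕ} (v : Fin n → Fin m → ℝ) (A : Fin m → Fin n) (i j : Fin n) :
    meanDel v A i j =
      (((bundle A j).card : ℝ) - 1) * (∑ h ∈ bundle A j, v i h) / ((bundle A j).card : ℝ) := by
  unfold meanDel
  rw [sum_sum_erase]

/-- the main inequality, `4ρ(s-1)T ≤ (4ρ(s-1) + (1+ρ)^2) V` -/
lemma main_ineq {n m : ℕ} {v : Fin n → Fin m → ℝ} (hv : ∀ i g, 0 ≤ v i g) {A : Fin m → Fin n}
    (hA : MaxNash v A) {i j : Fin n} (hij : i ≠ j) (hne : (bundle A j).Nonempty) {ρ : ℝ}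
    (hρ : 1 ≤ ρ) (hr : ∀ g ∈ bundle A j, ∀ h ∈ bundle A j, v i g ≤ ρ * v i h) :
    4 * ρ * (((bundle A j).card : ℝ) - 1) * (∑ h ∈ bundle A j, v i h) ≤
      (4 * ρ * (((bundle A j).card : ℝ) - 1) + (1 + ρ) ^ 2) * own v A i := by
  obtain ⟨g0, hg0, hmin⟩ := Finset.exists_min_image (bundle A j) (v i) hne
  obtain ⟨V, hV⟩ : ∃ V, V = own v A i := ⟨_, rfl⟩
  obtain ⟨L, hL⟩ : ∃ L, L = v i g0 := ⟨_, rfl⟩
  have hVpos : 0 < V := by rw [hV]; exact own_pos hv hA i
  have hL0 : 0 ≤ L := by rw [hL]; exact hv i g0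
  have hone := sum_le_one hv hA hij
  rw [← hV] at hone ⊢
  have hD : 0 < (V + L) * (V + ρ * L) := by positivity
  have h1 : ∑ g ∈ bundle A j, (v i g * V + ρ * L ^ 2) / ((V + L) * (V + ρ * L)) ≤ 1 := by
    refine le_trans (Finset.sum_le_sum ?_) hone
    intro g hg
    have a1 : L ≤ v i g := by rw [hL]; exact hmin g hg
    have a2 : v i g ≤ ρ * L := by rw [hL]; exact hr g hg g0 hg0
    have a3 : 0 ≤ v i g := hv i g
    rw [div_le_div_iff₀ hD (by linarith)]
    have a4 : 0 ≤ V * ((v i g - L) * (ρ * L - v i g)) :=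
      mul_nonneg hVpos.le (mul_nonneg (by linarith) (by linarith))
    nlinarith
  rw [← Finset.sum_div, div_le_one hD, Finset.sum_add_distrib, ← Finset.sum_mul, Finset.sum_const,
    nsmul_eq_mul] at h1
  obtain ⟨T, hT⟩ : ∃ T, T = ∑ g ∈ bundle A j, v i g := ⟨_, rfl⟩
  obtain ⟨s, hs⟩ : ∃ s : ℝ, s = ((bundle A j).card : ℝ) := ⟨_, rfl⟩
  rw [← hT, ← hs] at h1
  rw [← hT, ← hs]
  have hs1 : 1 ≤ s := by
    rw [hs]
    exact_mod_cast Finset.card_pos.2 hne
  -- V T ≤ V² + (1+ρ) L V - (s-1) ρ L²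
  have h2 : T * V ≤ V ^ 2 + (1 + ρ) * L * V - (s - 1) * ρ * L ^ 2 := by nlinarith
  have h3 : 0 ≤ 4 * ρ * (s - 1) := mul_nonneg (by linarith) (by linarith)
  have h4 := mul_le_mul_of_nonneg_left h2 h3
  have h5 : V * (4 * ρ * (s - 1) * T) ≤ V * ((4 * ρ * (s - 1) + (1 + ρ) ^ 2) * V) := by
    nlinarith [sq_nonneg ((1 + ρ) * V - 2 * (s - 1) * ρ * L)]
  exact le_of_mul_le_mul_left h5 hVpos

/-- bundles of two goods: `√ρ T ≤ (1+ρ) V` -/
lemma two_goods {n m : ℕ} {v : Fin n → Fin m → ℝ} (hv : ∀ i g, 0 ≤ v i g) {A : Fin m → Fin n}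
    (hA : MaxNash v A) {i j : Fin n} (hij : i ≠ j) (hc : (bundle A j).card = 2) {y : ℝ}
    (hy : 1 ≤ y) (hr : ∀ g ∈ bundle A j, ∀ h ∈ bundle A j, v i g ≤ y ^ 2 * v i h) :
    y * (∑ h ∈ bundle A j, v i h) ≤ (1 + y ^ 2) * own v A i := by
  obtain ⟨a, b, hab, hS⟩ := Finset.card_eq_two.1 hc
  have hone := sum_le_one hv hA hij
  have hVpos := own_pos hv hA i
  have ha : a ∈ bundle A j := by rw [hS]; simp
  have hb : b ∈ bundle A j := by rw [hS]; simp
  have r1 := hr a ha b hb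
  have r2 := hr b hb a ha
  rw [hS, Finset.sum_pair hab] at hone ⊢
  have h1 := hv i a
  have h2 := hv i b
  obtain ⟨V, hV⟩ : ∃ V, V = own v A i := ⟨_, rfl⟩
  rw [← hV] at hVpos hone ⊢
  have h3 : v i a * v i b ≤ V ^ 2 := by
    rw [div_add_div _ _ (by linarith) (by linarith), div_le_one (by positivity)] at hone
    nlinarith
  have h4 : (y * (v i a + v i b)) ^ 2 ≤ ((1 + y ^ 2) * V) ^ 2 := by
    have h5 : 0 ≤ (y ^ 2 * v i a - v i b) * (y ^ 2 * v i b - v i a) :=
      mul_nonneg (by linarith) (by linarith)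
    have h6 : (1 + y ^ 2) ^ 2 * (v i a * v i b) ≤ (1 + y ^ 2) ^ 2 * V ^ 2 :=
      mul_le_mul_of_nonneg_left h3 (by positivity)
    nlinarith
  exact le_of_sq_le_sq h4 (by positivity) 

/-- the first bound -/
lemma bound_one {n m : ℕ} {v : Fin n → Fin m → ℝ} (hv : ∀ i g, 0 ≤ v i g) {A : Fin m → Fin n}
    (hA : MaxNash v A) (i j : Fin n) (hne : (bundle A j).Nonempty) {y : ℝ}
    (hy : 1 ≤ y) (hr : ∀ g ∈ bundle A j, ∀ h ∈ bundle A j, v i g ≤ y ^ 2 * v i h) :
    meanDel v A i j ≤ (1 + (y ^ 2 - 1) ^ 2 / (4 * y ^ 2 * (bundle A j).card)) * own v A i := by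
  have hs1 : (1 : ℝ) ≤ ((bundle A j).card : ℝ) := by exact_mod_cast Finset.card_pos.2 hne
  have hVpos := own_pos hv hA i
  rw [mean_eq]
  by_cases hij : i = j
  · subst hij
    have h1 : (((bundle A i).card : ℝ) - 1) * (∑ h ∈ bundle A i, v i h) / ((bundle A i).card : ℝ) ≤
        own v A i := by
      rw [div_le_iff₀ (by linarith)]
      change (((bundle A i).card : ℝ) - 1) * own v A i ≤ _
      nlinarith
    refine h1.trans ?_
    have h2 : 0 ≤ (y ^ 2 - 1) ^ 2 / (4 * y ^ 2 * ((bundle A i).card : ℝ)) := by positivity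
    nlinarith
  · have hρ : (1 : ℝ) ≤ y ^ 2 := by nlinarith
    have h1 := main_ineq hv hA hij hne hρ hr
    obtain ⟨T, hT⟩ : ∃ T, T = ∑ g ∈ bundle A j, v i g := ⟨_, rfl⟩
    obtain ⟨s, hs⟩ : ∃ s : ℝ, s = ((bundle A j).card : ℝ) := ⟨_, rfl⟩
    rw [← hT, ← hs] at h1
    rw [← hs] at hs1
    rw [← hT, ← hs]
    have hspos : 0 < s := by linarith
    have hypos : 0 < y := by linarith
    have e1 : (1 + (y ^ 2 - 1) ^ 2 / (4 * y ^ 2 * s)) * own v A i =
        ((4 * y ^ 2 * (s - 1) + (1 + y ^ 2) ^ 2) * own v A i) / (4 * y ^ 2 * s) := by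
      field_simp
      ring
    rw [e1, div_le_div_iff₀ hspos (by positivity)]
    have := mul_le_mul_of_nonneg_right h1 hspos.le
    nlinarith

/-- the second bound -/
lemma bound_two {n m : ℕ} {v : Fin n → Fin m → ℝ} (hv : ∀ i g, 0 ≤ v i g) {A : Fin m → Fin n}
    (hA : MaxNash v A) (i j : Fin n) (hne : (bundle A j).Nonempty) {y : ℝ}
    (hy : 1 ≤ y) (hy4 : y ^ 2 + 1 ≤ 4 * y)
    (hr : ∀ g ∈ bundle A j, ∀ h ∈ bundle A j, v i g ≤ y ^ 2 * v i h) :
    meanDel v A i j ≤ (1 + y ^ 2) / (2 * y) * own v A i := by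
  have hs1 : (1 : ℝ) ≤ ((bundle A j).card : ℝ) := by exact_mod_cast Finset.card_pos.2 hne
  have hVpos := own_pos hv hA i
  have hypos : 0 < y := by linarith
  have hC : 2 * y ≤ 1 + y ^ 2 := by nlinarith [sq_nonneg (y - 1)]
  rw [mean_eq, div_mul_eq_mul_div, div_le_div_iff₀ (by linarith) (by linarith)]
  by_cases hij : i = j
  · subst hij
    change (((bundle A i).card : ℝ) - 1) * own v A i * (2 * y) ≤ _
    have h1 : (((bundle A i).card : ℝ) - 1) * own v A i ≤ own v A i * ((bundle A i).card : ℝ) := by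
      nlinarith
    have h2 : 0 ≤ own v A i * ((bundle A i).card : ℝ) := by positivity
    calc (((bundle A i).card : ℝ) - 1) * own v A i * (2 * y)
        ≤ own v A i * ((bundle A i).card : ℝ) * (2 * y) :=
          mul_le_mul_of_nonneg_right h1 (by linarith)
      _ ≤ own v A i * ((bundle A i).card : ℝ) * (1 + y ^ 2) := mul_le_mul_of_nonneg_left hC h2
      _ = (1 + y ^ 2) * own v A i * ((bundle A i).card : ℝ) := by ring
  · have hcard : (bundle A j).card = 1 ∨ (bundle A j).card = 2 ∨ 3 ≤ (bundle A j).card := by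
      have := Finset.card_pos.2 hne
      omega
    rcases hcard with hc | hc | hc
    · rw [hc]
      have : 0 ≤ (1 + y ^ 2) * own v A i := by positivity
      push_cast
      linarith
    · have h1 := two_goods hv hA hij hc hy hr
      rw [hc]
      push_cast
      linarith
    · have hρ : (1 : ℝ) ≤ y ^ 2 := by nlinarith
      have h1 := main_ineq hv hA hij hne hρ hr
      have hs3 : (3 : ℝ) ≤ ((bundle A j).card : ℝ) := by exact_mod_cast hc
      obtain ⟨T, hT⟩ : ∃ T, T = ∑ g ∈ bundle A j, v i g := ⟨_, rfl⟩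
      obtain ⟨s, hs⟩ : ∃ s : ℝ, s = ((bundle A j).card : ℝ) := ⟨_, rfl⟩
      rw [← hT, ← hs] at h1
      rw [← hs] at hs3
      rw [← hT, ← hs]
      -- 4y²(s-1) + (1+y²)² ≤ 2 y s (1+y²)
      have h2 : 4 * y ^ 2 * (s - 1) + (1 + y ^ 2) ^ 2 ≤ 2 * y * s * (1 + y ^ 2) := by
        have h3 : 0 ≤ (1 + y ^ 2 - 2 * y) * (s * (2 * y) - (1 + y ^ 2) - 2 * y) := by
          apply mul_nonneg (by linarith)
          have : 3 * (2 * y) ≤ s * (2 * y) := mul_le_mul_of_nonneg_right hs3 (by linarith)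
          linarith
        nlinarith
      have h4 := mul_le_mul_of_nonneg_right h2 hVpos.le
      have h5 : 2 * y * ((s - 1) * T * (2 * y)) ≤ 2 * y * ((1 + y ^ 2) * own v A i * s) := by
        nlinarith
      exact le_of_mul_le_mul_left h5 (by linarith)

/-- existence of an allocation of maximal Nash welfare -/
lemma exists_maxNash {n m : ℕ} (hn : 0 < n) (hnm : n ≤ m) {v : Fin n → Fin m → ℝ}
    (hv : ∀ i g, 0 < v i g) : ∃ A : Fin m → Fin n, MaxNash v A := by
  have : Nonempty (Fin m → Fin n) := ⟨fun _ => ⟨0, hn⟩⟩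
  obtain ⟨A, hA⟩ := Finite.exists_max (fun A : Fin m → Fin n => ∏ i, own v A i)
  refine ⟨A, ?_, hA⟩
  set B : Fin m → Fin n := fun g => ⟨g % n, Nat.mod_lt _ hn⟩ with hB
  refine lt_of_lt_of_le ?_ (hA B)
  apply Finset.prod_pos
  intro i _
  unfold own
  apply Finset.sum_pos
  · intro g _
    exact hv i g
  · refine ⟨⟨i, lt_of_lt_of_le i.isLt hnm⟩, ?_⟩
    simp only [bundle, Finset.mem_filter, Finset.mem_univ, true_and, hB]
    ext
    simp [Nat.mod_eq_of_lt i.isLt]

lemma sharp (y : ℝ) (hy : 1 ≤ y) : ∃ (v : Fin 2 → Fin 3 → ℝ) (A : Fin 3 → Fin 2),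
    (∀ i g, 1 ≤ v i g ∧ v i g ≤ y ^ 2) ∧ MaxNash v A ∧
      ∀ α : ℝ, IsEFR v α A → α ≤ 2 * y / (1 + y ^ 2) := by
  have hypos : 0 < y := by linarith
  have hyy : y ≤ y ^ 2 := by nlinarith
  have hone : 1 ≤ y ^ 2 := by nlinarith
  set v : Fin 2 → Fin 3 → ℝ := ![![1, y ^ 2, y], ![y, y ^ 2, 1]] with hv
  have hown0 : ∀ B : Fin 3 → Fin 2, own v B 0 =
      (if B 0 = 0 then 1 else 0) + (if B 1 = 0 then y ^ 2 else 0) + (if B 2 = 0 then y else 0) := by
    intro B
    unfold own bundle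
    rw [Finset.sum_filter, Fin.sum_univ_three]
    simp [hv]
  have hown1 : ∀ B : Fin 3 → Fin 2, own v B 1 =
      (if B 0 = 1 then y else 0) + (if B 1 = 1 then y ^ 2 else 0) + (if B 2 = 1 then 1 else 0) := by
    intro B
    unfold own bundle
    rw [Finset.sum_filter, Fin.sum_univ_three]
    simp [hv]
  refine ⟨v, ![1, 1, 0], ?_, ⟨?_, ?_⟩, ?_⟩
  · intro i g
    fin_cases i <;> fin_cases g
    · show (1 : ℝ) ≤ 1 ∧ (1 : ℝ) ≤ y ^ 2
      exact ⟨le_refl _, hone⟩
    · show (1 : ℝ) ≤ y ^ 2 ∧ y ^ 2 ≤ y ^ 2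
      exact ⟨hone, le_refl _⟩
    · show (1 : ℝ) ≤ y ∧ y ≤ y ^ 2
      exact ⟨hy, hyy⟩
    · show (1 : ℝ) ≤ y ∧ y ≤ y ^ 2
      exact ⟨hy, hyy⟩
    · show (1 : ℝ) ≤ y ^ 2 ∧ y ^ 2 ≤ y ^ 2
      exact ⟨hone, le_refl _⟩
    · show (1 : ℝ) ≤ 1 ∧ (1 : ℝ) ≤ y ^ 2
      exact ⟨le_refl _, hone⟩
  · rw [Fin.prod_univ_two, hown0, hown1]
    simp
    positivity
  · intro B
    rw [Fin.prod_univ_two, Fin.prod_univ_two, hown0, hown1, hown0, hown1]
    have hB : ∀ k : Fin 3, B k = 0 ∨ B k = 1 := fun k => by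
      have := (B k).isLt
      rcases Nat.lt_or_ge (B k : ℕ) 1 with h | h
      · left; ext; simpa using h
      · right; ext; simp; omega
    rcases hB 0 with h0 | h0 <;> rcases hB 1 with h1 | h1 <;> rcases hB 2 with h2 | h2 <;>
      simp [h0, h1, h2] <;> nlinarith [mul_pos hypos hypos, mul_nonneg (sub_nonneg.2 hy) hypos.le,
        mul_nonneg (sub_nonneg.2 hone) hypos.le]
  · intro α hα
    have h1 := hα 0 1 ⟨0, by simp [bundle]⟩
    have hb : bundle (![1, 1, 0] : Fin 3 → Fin 2) 1 = {0, 1} := by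
      ext g
      fin_cases g <;> simp [bundle]
    rw [mean_eq, hown0, hb] at h1
    have hc : ({0, 1} : Finset (Fin 3)).card = 2 := rfl
    rw [hc, Finset.sum_pair (by decide)] at h1
    simp [hv] at h1
    rw [le_div_iff₀ (by positivity)]
    nlinarith

theorem result :
    (∀ (n m : ℕ) (v : Fin n → Fin m → ℝ) (A : Fin m → Fin n), (∀ i g, 0 ≤ v i g) → MaxNash v A →
      ∀ (i j : Fin n) (y : ℝ), 1 ≤ y → (bundle A j).Nonempty →
        (∀ g ∈ bundle A j, ∀ h ∈ bundle A j, v i g ≤ y ^ 2 * v i h) →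
        meanDel v A i j ≤ (1 + (y ^ 2 - 1) ^ 2 / (4 * y ^ 2 * (bundle A j).card)) * own v A i ∧
        (y ^ 2 + 1 ≤ 4 * y → meanDel v A i j ≤ (1 + y ^ 2) / (2 * y) * own v A i)) ∧
    (∀ (n m : ℕ), 0 < n → ∀ (v : Fin n → Fin m → ℝ) (x : Fin n → ℝ) (y : ℝ), (∀ i, 0 < x i) →
      1 ≤ y → y ^ 2 + 1 ≤ 4 * y → (∀ i g, x i ≤ v i g ∧ v i g ≤ y ^ 2 * x i) →
      ∃ A : Fin m → Fin n, IsEFR v (2 * y / (1 + y ^ 2)) A) ∧
    ∀ y : ℝ, 1 ≤ y → ∃ (v : Fin 2 → Fin 3 → ℝ) (A : Fin 3 → Fin 2),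
      (∀ i g, 1 ≤ v i g ∧ v i g ≤ y ^ 2) ∧ MaxNash v A ∧
      ∀ α : ℝ, IsEFR v α A → α ≤ 2 * y / (1 + y ^ 2) := by
  refine ⟨fun n m v A hv hA i j y hy hne hr =>
    ⟨bound_one hv hA i j hne hy hr, fun h4 => bound_two hv hA i j hne hy h4 hr⟩, ?_, sharp⟩
  intro n m hn v x y hx hy hy4 hxv
  have hypos : 0 < y := by linarith
  have hvpos : ∀ i g, 0 < v i g := fun i g => lt_of_lt_of_le (hx i) (hxv i g).1
  rcases le_or_gt n m with hnm | hnm
  · obtain ⟨A, hA⟩ := exists_maxNash hn hnm hvpos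
    refine ⟨A, fun i j hne => ?_⟩
    have h1 := bound_two (fun i g => (hvpos i g).le) hA i j hne hy hy4 (fun g _ h _ => by
      have h2 := (hxv i g).2
      have h3 := mul_le_mul_of_nonneg_left (hxv i h).1 (sq_nonneg y)
      linarith)
    rw [div_mul_eq_mul_div, le_div_iff₀ (by linarith)] at h1
    rw [div_mul_eq_mul_div, div_le_iff₀ (by positivity)]
    linarith
  · refine ⟨fun g => ⟨g, lt_trans g.isLt hnm⟩, fun i j hne => ?_⟩
    have hcard : (bundle (fun g : Fin m => (⟨g, lt_trans g.isLt hnm⟩ : Fin n)) j).card = 1 := by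
      apply le_antisymm
      · rw [Finset.card_le_one]
        intro a ha b hb
        have ha' := (Finset.mem_filter.1 ha).2
        have hb' := (Finset.mem_filter.1 hb).2
        have := ha'.trans hb'.symm
        ext
        simpa using congrArg Fin.val this
      · exact Finset.card_pos.2 hne
    rw [mean_eq, hcard]
    have : 0 ≤ own v (fun g : Fin m => (⟨g, lt_trans g.isLt hnm⟩ : Fin n)) i :=
      own_nonneg (fun i g => (hvpos i g).le) _ i
    simpa using this

end Pool.Agent.Results.MP_c4077f_co.NashWelfare
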