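import Pool.Agent.Lib.MP_c4077f_co.Main

/-!
MP_c4077f_co: for restricted additive valuations (every good has a price, and every agent values it at
this price or at zero) there is an allocation which is envy-free up to a random good, and which also
maximises the smallest value.
-/

namespace Pool.Agent.Results.MP_c4077f_co.RestrictedAdditive

open Finset Pool.Agent.Lib.MP_c4077f_co

theorem result (n m : ℕ) (hn : 0 < n) (v : Fin n → Fin m → ℝ) (p : Fin m → ℝ)
    (hp : ∀ g, 0 ≤ p g) (hv : ∀ i g, v i g = 0 ∨ v i g = p g) :
    ∃ A : Fin m → Fin n,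
      (∀ i j : Fin n, (Finset.univ.filter (fun g => A g = j)).Nonempty →
          (∑ g ∈ Finset.univ.filter (fun g => A g = j),
              ∑ h ∈ (Finset.univ.filter (fun g => A g = j)).erase g, v i h)
            ≤ ((Finset.univ.filter (fun g => A g = j)).card : ℝ) *
              ∑ g ∈ Finset.univ.filter (fun g => A g = i), v i g) ∧
      (∀ (B : Fin m → Fin n) (t : ℝ),
        (∀ i, t ≤ ∑ g ∈ Finset.univ.filter (fun g => B g = i), v i g) →
          ∀ i, t ≤ ∑ g ∈ Finset.univ.filter (fun g => A g = i), v i g) := by
  classical
  haveI : Nonempty (Fin n) := ⟨⟨0, hn⟩⟩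
  set p' : Fin m → ℝ := fun g => if 0 < p g then p g else 1 with hp'
  have hpos : ∀ g, 0 < p' g := by
    intro g
    simp only [hp']
    split_ifs with h
    · exact h
    · exact one_pos
  set L : Fin n → Finset (Fin m) := fun i => Finset.univ.filter fun g => 0 < v i g with hL
  have hval : ∀ i (S : Finset (Fin m)), ∑ g ∈ S, v i g = va p' L i S := by
    intro i S
    unfold va pr
    rw [Finset.inter_comm, hL, Finset.filter_inter, Finset.univ_inter, Finset.sum_filter]
    apply Finset.sum_congr rfl
    intro g _
    split_ifs with h
    · rcases hv i g with h1 | h1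
      · rw [h1] at h
        exact absurd h (lt_irrefl _)
      · rw [h1] at h ⊢
        simp only [hp', if_pos h]
    · rcases hv i g with h1 | h1
      · exact h1
      · rw [h1] at h ⊢
        exact le_antisymm (not_lt.1 h) (hp g)
  obtain ⟨A, hA⟩ := exists_opt (L := L) hpos
  have hcomp := complete hpos hA
  choose f hf using hcomp
  have hbundle : ∀ j, Finset.univ.filter (fun g => f g = j) = A j := by
    intro j
    ext g
    simp only [Finset.mem_filter, Finset.mem_univ, true_and]
    constructor
    · intro h
      rw [← h]
      exact hf g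
    · intro h
      by_contra hne
      exact Finset.disjoint_left.1 (hA.adm.disj _ _ hne) (hf g) h
  refine ⟨f, ?_, ?_⟩
  · intro i j hne
    rw [hbundle] at hne ⊢
    rw [hbundle, sum_sum_erase, hval, hval]
    have h1 := hA.adm.efr i j
    unfold Fine at h1
    have h2 : (1 : ℝ) ≤ ((A j).card : ℝ) := by exact_mod_cast Finset.card_pos.2 hne
    have h3 : (((A j).card : ℝ) - 1) * va p' L i (A j) =
        ((A j).card : ℝ) * ((1 - 1 / ((A j).card : ℝ)) * va p' L i (A j)) := by
      field_simp
    rw [h3]
    exact mul_le_mul_of_nonneg_left h1 (by linarith)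
  · intro B t hB i
    rw [hbundle, hval]
    obtain ⟨s, _, hs⟩ := Finset.exists_min_image (Finset.univ : Finset (Fin n))
      (fun z => va p' L z (A z)) Finset.univ_nonempty
    refine le_trans ?_ (hs i (Finset.mem_univ i))
    by_contra hcon
    push Not at hcon
    have hB2 : ∀ w, va p' L s (A s) < pr p' (Finset.univ.filter (fun g => B g = w) ∩ L w) := by
      intro w
      have := hB w
      rw [hval] at this
      exact lt_of_lt_of_le hcon this
    refine imp hpos hA (va p' L s (A s)) s (fun w => Finset.univ.filter (fun g => B g = w) ∩ L w)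
      ?_ (fun w => Finset.inter_subset_right) (le_refl _) (hB2 s) (fun w => Or.inl (hB2 w)) ?_
    · intro w w' hw
      rw [Finset.disjoint_left]
      intro g hg hg'
      simp only [Finset.mem_inter, Finset.mem_filter, Finset.mem_univ, true_and] at hg hg'
      exact hw (hg.1.symm.trans hg'.1)
    · intro w hw
      obtain ⟨Z, hZ, hT⟩ := exists_trim _ _ hw
      exact ⟨Z, hZ, hT, fun w' hw' => absurd (hB2 w') hw'⟩

end Pool.Agent.Results.MP_c4077f_co.RestrictedAdditive
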