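import Mathlib

/-!
MP_c4077f_co: if every agent `i` has all its values in `{x_i, 2 x_i, 3 x_i}` or all in `{0, x_i, 2 x_i}`
(this may depend on the agent), then there is a Pareto optimal EFR allocation. If every good has a positive
value for some agent, then every allocation that has the largest product of values, this being positive,
and, among these, the largest sum of the normalised values `v_i(A_i) / x_i` is EFR and Pareto optimal.
-/

namespace Pool.Agent.Results.MP_c4077f_co.ThreeValues

open Finset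

/-- The bundle of agent `j` under the assignment `A` of goods to agents. -/
def bundle {n m : ℕ} (A : Fin m → Fin n) (j : Fin n) : Finset (Fin m) :=
  univ.filter (fun g => A g = j)

/-- The value of agent `i` for its own bundle. -/
def own {n m : ℕ} (v : Fin n → Fin m → ℝ) (A : Fin m → Fin n) (i : Fin n) : ℝ :=
  ∑ g ∈ bundle A i, v i g

/-- `A` is EFR: for all agents `i`, `j` with a nonempty bundle `A_j`, the mean over `g ∈ A_j` of the value
of agent `i` for `A_j` without `g` is at most its value for its own bundle. -/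
def IsEFR {n m : ℕ} (v : Fin n → Fin m → ℝ) (A : Fin m → Fin n) : Prop :=
  ∀ i j : Fin n, (bundle A j).Nonempty →
    (∑ g ∈ bundle A j, ∑ h ∈ (bundle A j).erase g, v i h) / ((bundle A j).card : ℝ) ≤ own v A i

/-- `A` has the largest product of values, this product is positive, and among the allocations with this
product `A` has the largest sum of the values divided by `x_i`. -/
def Best {n m : ℕ} (v : Fin n → Fin m → ℝ) (x : Fin n → ℝ) (A : Fin m → Fin n) : Prop :=
  0 < ∏ i, own v A i ∧ ∀ B : Fin m → Fin n, ∏ i, own v B i < ∏ i, own v A i ∨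
    (∏ i, own v B i = ∏ i, own v A i ∧ ∑ i, own v B i / x i ≤ ∑ i, own v A i / x i)

/-- `A` is Pareto optimal: no allocation is at least as good for all agents and better for one. -/
def Pareto {n m : ℕ} (v : Fin n → Fin m → ℝ) (A : Fin m → Fin n) : Prop :=
  ∀ B : Fin m → Fin n, (∀ i, own v A i ≤ own v B i) → ∀ i, own v B i = own v A i

lemma lin {G : Type*} (S : Finset G) (v w : G → ℤ) (a b c : ℤ)
    (h : ∀ g ∈ S, 0 ≤ a * v g + b * w g + c) :
    0 ≤ a * (∑ g ∈ S, v g) + b * (∑ g ∈ S, w g) + c * (S.card : ℤ) := by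
  have h1 := Finset.sum_nonneg h
  rw [Finset.sum_add_distrib, Finset.sum_add_distrib, ← Finset.mul_sum, ← Finset.mul_sum,
    Finset.sum_const, nsmul_eq_mul] at h1
  linarith

lemma lin' {G : Type*} [DecidableEq G] (S : Finset G) (v w : G → ℤ) (a b c e : ℤ) (g0 : G)
    (hg0 : g0 ∈ S) (h : ∀ g ∈ S, 0 ≤ a * v g + b * w g + c) (h0 : e ≤ a * v g0 + b * w g0 + c) :
    e ≤ a * (∑ g ∈ S, v g) + b * (∑ g ∈ S, w g) + c * (S.card : ℤ) := by
  have h1 := Finset.single_le_sum h hg0
  rw [Finset.sum_add_distrib, Finset.sum_add_distrib, ← Finset.mul_sum, ← Finset.mul_sum,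
    Finset.sum_const, nsmul_eq_mul] at h1
  linarith

/-- the arithmetic of the values 1, 2, 3 -/
theorem key {G : Type*} [DecidableEq G] (S : Finset G) (v w : G → ℤ) (V : ℤ) (hV : 0 ≤ V)
    (hv : ∀ g ∈ S, 1 ≤ v g ∧ v g ≤ 3) (hw : ∀ g ∈ S, 1 ≤ w g ∧ w g ≤ 3)
    (H1 : ∀ g ∈ S, v g * ((∑ h ∈ S, w h) - w g) ≤ V * w g)
    (H2 : ∀ g ∈ S, w g < v g → v g * ((∑ h ∈ S, w h) - w g) < V * w g) :
    ((S.card : ℤ) - 1) * ∑ g ∈ S, v g ≤ (S.card : ℤ) * V := by
  rcases S.eq_empty_or_nonempty with hS | hS
  · subst hS; simp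
  have hs1 : (1 : ℤ) ≤ (S.card : ℤ) := by exact_mod_cast Finset.card_pos.2 hS
  have L := lin S v w
  have L' := lin' S v w
  obtain ⟨T, hT⟩ : ∃ T, T = ∑ g ∈ S, v g := ⟨_, rfl⟩
  obtain ⟨W, hW⟩ : ∃ W, W = ∑ g ∈ S, w g := ⟨_, rfl⟩
  obtain ⟨s, hs⟩ : ∃ s : ℤ, s = (S.card : ℤ) := ⟨_, rfl⟩
  rw [← hT, ← hW, ← hs] at L
  rw [← hT, ← hW, ← hs] at L'
  rw [← hW] at H1 H2
  rw [← hs] at hs1
  rw [← hT, ← hs]
  have hsW : s ≤ W := by
    have := L 0 1 (-1) (fun g hg => by have := hw g hg; omega)
    linarith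
  have hsT : s ≤ T := by
    have := L 1 0 (-1) (fun g hg => by have := hv g hg; omega)
    linarith
  -- the case of one good
  rcases eq_or_lt_of_le hs1 with h1 | hs2
  · rw [← h1]; linarith
  have hs2' : 2 ≤ s := by omega
  by_cases c31 : ∃ g ∈ S, v g = 3 ∧ w g = 1
  · obtain ⟨g, hg, e1, e2⟩ := c31
    have h2 := H2 g hg (by omega)
    rw [e1, e2] at h2
    have h3 := L (-1) 0 3 (fun g hg => by have := hv g hg; omega)
    nlinarith
  push Not at c31
  by_cases c21 : ∃ g ∈ S, v g = 2 ∧ w g = 1
  · obtain ⟨g, hg, e1, e2⟩ := c21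
    have h2 := H2 g hg (by omega)
    rw [e1, e2] at h2
    have h3 := L (-1) 2 0 (fun g hg => by
      have a1 := hv g hg
      have a2 := hw g hg
      have a3 := c31 g hg
      by_cases b1 : v g = 3
      · have := a3 b1; omega
      · omega)
    nlinarith
  push Not at c21
  -- now `w g = 1` forces `v g = 1`
  have hw1 : ∀ g ∈ S, w g = 1 → v g = 1 := by
    intro g hg e
    have a1 := hv g hg
    have a3 := c31 g hg
    have a4 := c21 g hg
    by_contra hcon
    rcases (show v g = 2 ∨ v g = 3 by omega) with h | h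
    · exact a4 h e
    · exact a3 h e
  by_cases c32 : ∃ g ∈ S, v g = 3 ∧ w g = 2
  · obtain ⟨g0, hg0, e1, e2⟩ := c32
    have h2 := H2 g0 hg0 (by omega)
    rw [e1, e2] at h2
    have hD := L (-2) 3 0 (fun g hg => by
      have a1 := hv g hg
      have a2 := hw g hg
      have a3 := hw1 g hg
      by_cases b1 : w g = 1
      · have := a3 b1; omega
      · omega)
    rcases eq_or_lt_of_le hs2' with h3 | hs3
    · -- two goods
      have h4 := L' (-2) 6 (-4) 2 g0 hg0 (fun g hg => by
        have a1 := hv g hg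
        have a2 := hw g hg
        have a3 := hw1 g hg
        by_cases b1 : w g = 1
        · have := a3 b1; omega
        · omega) (by omega)
      rw [← h3] at h4 ⊢
      linarith
    · have hs3' : 3 ≤ s := by omega
      have h4 := L (-4) 9 (-5) (fun g hg => by
        have a1 := hv g hg
        have a2 := hw g hg
        have a3 := hw1 g hg
        by_cases b1 : w g = 1
        · have := a3 b1; omega
        · omega)
      have h5 : 0 ≤ (s - 3) * (3 * W - 2 * T) := mul_nonneg (by linarith) (by linarith)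
      have h6 : s * (3 * W - 5) ≤ s * (2 * V) := mul_le_mul_of_nonneg_left (by linarith) (by linarith)
      nlinarith
  push Not at c32
  have hvw : ∀ g ∈ S, v g ≤ w g := by
    intro g hg
    have a1 := hv g hg
    have a2 := hw g hg
    have a3 := hw1 g hg
    have a4 := c32 g hg
    by_contra hcon
    rcases (show w g = 1 ∨ (v g = 3 ∧ w g = 2) by omega) with h | h
    · have := a3 h; omega
    · exact a4 h.1 h.2
  have hTW : T ≤ W := by
    have := L (-1) 1 0 (fun g hg => by have := hvw g hg; omega)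
    linarith
  by_cases c11 : ∃ g ∈ S, v g = 1 ∧ w g = 1
  · obtain ⟨g, hg, e1, e2⟩ := c11
    have h2 := H1 g hg
    rw [e1, e2] at h2
    nlinarith
  push Not at c11
  have hw2 : ∀ g ∈ S, 2 ≤ w g := by
    intro g hg
    have a2 := hw g hg
    by_contra hcon
    have h : w g = 1 := by omega
    exact c11 g hg (hw1 g hg h) h
  have h2sW : 2 * s ≤ W := by
    have := L 0 1 (-2) (fun g hg => by have := hw2 g hg; omega)
    linarith
  by_cases c22 : ∃ g ∈ S, v g = 2 ∧ w g = 2
  · obtain ⟨g, hg, e1, e2⟩ := c22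
    have h2 := H1 g hg
    rw [e1, e2] at h2
    nlinarith
  push Not at c22
  by_cases c33 : ∃ g ∈ S, v g = 3 ∧ w g = 3
  · obtain ⟨g, hg, e1, e2⟩ := c33
    have h2 := H1 g hg
    rw [e1, e2] at h2
    have h3 := L (-1) 2 (-3) (fun g hg => by
      have a1 := hv g hg
      have a2 := hw g hg
      have a3 := hvw g hg
      have a4 := hw2 g hg
      have a5 := c22 g hg
      by_cases b1 : v g = 2
      · have := a5 b1; omega
      · omega)
    -- W + (s-1) d ≥ 3 s
    have h5 : 0 ≤ (s - 2) * (W - T) := mul_nonneg (by linarith) (by linarith)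
    have h6 : s * (W - 3) ≤ s * V := mul_le_mul_of_nonneg_left (by linarith) (by linarith)
    nlinarith
  push Not at c33
  -- only the types (1,2), (2,3), (1,3)
  have htyp : ∀ g ∈ S, (v g = 1 ∧ w g = 2) ∨ (v g = 2 ∧ w g = 3) ∨ (v g = 1 ∧ w g = 3) := by
    intro g hg
    have a1 := hv g hg
    have a2 := hw g hg
    have a3 := hvw g hg
    have a4 := hw2 g hg
    have a5 := c22 g hg
    have a6 := c33 g hg
    by_contra hcon
    rcases (show (v g = 2 ∧ w g = 2) ∨ (v g = 3 ∧ w g = 3) by omega) with h | h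
    · exact a5 h.1 h.2
    · exact a6 h.1 h.2
  obtain ⟨p, hp⟩ : ∃ p, p = T - s := ⟨_, rfl⟩
  obtain ⟨q, hq⟩ : ∃ q, q = 3 * s - W := ⟨_, rfl⟩
  obtain ⟨r, hr⟩ : ∃ r, r = s - p - q := ⟨_, rfl⟩
  have hp0 : 0 ≤ p := by linarith
  have hq0 : 0 ≤ q := by
    have := L 0 (-1) 3 (fun g hg => by rcases htyp g hg with h | h | h <;> omega)
    linarith
  have hr0 : 0 ≤ r := by
    have := L (-1) 1 (-1) (fun g hg => by rcases htyp g hg with h | h | h <;> omega)
    linarith
  have hT' : T = s + p := by linarith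
  have hW' : W = 3 * s - q := by linarith
  have hs' : s = p + q + r := by linarith
  by_cases cp : ∃ g ∈ S, v g = 2 ∧ w g = 3
  · obtain ⟨g, hg, e1, e2⟩ := cp
    have h2 := H1 g hg
    rw [e1, e2, hW'] at h2
    have hp1 : 1 ≤ p := by
      have := L' 1 0 (-1) 1 g hg (fun g hg => by have := hv g hg; omega) (by omega)
      linarith
    rw [hT']
    by_cases hbig : 3 ≤ q + 3 * r
    · have h3 : 0 ≤ s * (q + 3 * r - 3) := mul_nonneg (by linarith) (by linarith)
      have h4 : s * (2 * (3 * s - q - 3)) ≤ s * (V * 3) :=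
        mul_le_mul_of_nonneg_left h2 (by linarith)
      have h5 : s * (2 * (3 * s - q - 3)) - 3 * ((s - 1) * (s + p)) =
          s * (q + 3 * r - 3) + 3 * p := by
        rw [hr]; ring
      nlinarith
    · have hr' : r = 0 := by omega
      rcases (show q = 0 ∨ q = 1 ∨ q = 2 by omega) with h | h | h
      · have hV2 : 2 * s - 2 ≤ V := by omega
        have e3 : p = s := by omega
        rw [e3]
        nlinarith
      · have hV2 : 2 * s - 2 ≤ V := by omega
        have e3 : p = s - 1 := by omega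
        rw [e3]
        nlinarith
      · have hV2 : 2 * s - 3 ≤ V := by omega
        have e3 : p = s - 2 := by omega
        rw [e3]
        nlinarith
  · push Not at cp
    have hall : ∀ g ∈ S, v g = 1 := by
      intro g hg
      rcases htyp g hg with h | h | h
      · exact h.1
      · exact absurd h.2 (cp g hg h.1)
      · exact h.1
    have hTs : T = s := by
      have := L (-1) 0 1 (fun g hg => by have := hall g hg; omega)
      linarith
    have hVs : s - 1 ≤ V := by
      by_cases cq : ∃ g ∈ S, w g = 2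
      · obtain ⟨g, hg, e2⟩ := cq
        have h2 := H1 g hg
        rw [hall g hg, e2] at h2
        omega
      · push Not at cq
        have hW3 : 3 * s ≤ W := by
          have := L 0 1 (-3) (fun g hg => by
            have := cq g hg
            rcases htyp g hg with h | h | h <;> omega)
          linarith
        obtain ⟨g, hg⟩ := hS
        have h2 := H1 g hg
        have e2 : w g = 3 := by
          have := cq g hg
          rcases htyp g hg with h | h | h <;> omega
        rw [hall g hg, e2] at h2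
        omega
    rw [hTs]
    nlinarith

/-- the arithmetic of the values 0, 1, 2 -/
theorem key0 {G : Type*} [DecidableEq G] (S : Finset G) (v w : G → ℤ) (V : ℤ) (hV : 0 ≤ V)
    (hv : ∀ g ∈ S, 0 ≤ v g ∧ v g ≤ 2) (hw : ∀ g ∈ S, 1 ≤ w g ∧ w g ≤ 3)
    (H1 : ∀ g ∈ S, v g * ((∑ h ∈ S, w h) - w g) ≤ V * w g) :
    ((S.card : ℤ) - 1) * ∑ g ∈ S, v g ≤ (S.card : ℤ) * V := by
  rcases S.eq_empty_or_nonempty with hS | hS
  · subst hS; simp
  have hs1 : (1 : ℤ) ≤ (S.card : ℤ) := by exact_mod_cast Finset.card_pos.2 hS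
  rcases eq_or_lt_of_le hs1 with h1 | hs2
  · rw [← h1]; linarith
  have hs2' : (2 : ℤ) ≤ (S.card : ℤ) := by omega
  -- two goods
  rcases eq_or_lt_of_le hs2' with h2 | hs3
  · have hc : S.card = 2 := by exact_mod_cast h2.symm
    obtain ⟨p, q, hpq, rfl⟩ := Finset.card_eq_two.mp hc
    rw [hc, Finset.sum_pair hpq]
    have v1 := hv p (by simp)
    have v2 := hv q (by simp)
    have w1 := hw p (by simp)
    have w2 := hw q (by simp)
    have k1 := H1 p (by simp)
    have k2 := H1 q (by simp)
    rw [Finset.sum_pair hpq] at k1 k2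
    generalize v p = a at *
    generalize v q = b at *
    generalize w p = c at *
    generalize w q = d at *
    obtain ⟨v11, v12⟩ := v1
    obtain ⟨v21, v22⟩ := v2
    obtain ⟨w11, w12⟩ := w1
    obtain ⟨w21, w22⟩ := w2
    push_cast
    interval_cases a <;> interval_cases b <;> interval_cases c <;> interval_cases d <;> omega
  have hs3' : (3 : ℤ) ≤ (S.card : ℤ) := by omega
  have L := lin S v w
  obtain ⟨T, hT⟩ : ∃ T, T = ∑ g ∈ S, v g := ⟨_, rfl⟩
  obtain ⟨W, hW⟩ : ∃ W, W = ∑ g ∈ S, w g := ⟨_, rfl⟩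
  obtain ⟨s, hs⟩ : ∃ s : ℤ, s = (S.card : ℤ) := ⟨_, rfl⟩
  rw [← hT, ← hW, ← hs] at L
  rw [← hW] at H1
  rw [← hs] at hs3'
  rw [← hT, ← hs]
  have hsW : s ≤ W := by
    have := L 0 1 (-1) (fun g hg => by have := hw g hg; omega)
    linarith
  have hT0 : 0 ≤ T := by
    have := L 1 0 0 (fun g hg => by have := hv g hg; omega)
    linarith
  have hT2 : T ≤ 2 * s := by
    have := L (-1) 0 2 (fun g hg => by have := hv g hg; omega)
    linarith
  have hcase : ∀ g ∈ S, (v g = 0 ∨ v g = 1 ∨ v g = 2) ∧ (w g = 1 ∨ w g = 2 ∨ w g = 3) := by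
    intro g hg
    have a1 := hv g hg
    have a2 := hw g hg
    constructor <;> omega
  by_cases c21 : ∃ g ∈ S, v g = 2 ∧ w g = 1
  · obtain ⟨g, hg, e1, e2⟩ := c21
    have h2 := H1 g hg
    rw [e1, e2] at h2
    nlinarith
  by_cases c11 : ∃ g ∈ S, v g = 1 ∧ w g = 1
  · obtain ⟨g, hg, e1, e2⟩ := c11
    have h2 := H1 g hg
    rw [e1, e2] at h2
    have hTW : T ≤ W := by
      have := L (-1) 1 0 (fun g hg => by
        rcases hcase g hg with ⟨a | a | a, b | b | b⟩ <;> rw [a, b] <;> first | (exfalso; exact c21 ⟨g, hg, a, b⟩) | omega)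
      linarith
    nlinarith
  by_cases c22 : ∃ g ∈ S, v g = 2 ∧ w g = 2
  · obtain ⟨g, hg, e1, e2⟩ := c22
    have h2 := H1 g hg
    rw [e1, e2] at h2
    have h3 := L (-(s - 1)) s (-2) (fun g hg => by
        rcases hcase g hg with ⟨a | a | a, b | b | b⟩ <;> rw [a, b] <;>
          first | (exfalso; exact c21 ⟨g, hg, a, b⟩) | (exfalso; exact c11 ⟨g, hg, a, b⟩) | linarith)
    nlinarith
  by_cases c23 : ∃ g ∈ S, v g = 2 ∧ w g = 3
  · obtain ⟨g, hg, e1, e2⟩ := c23
    have h2 := H1 g hg
    rw [e1, e2] at h2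
    have h3 := L (-(3 * (s - 1))) (2 * s) (-6) (fun g hg => by
        rcases hcase g hg with ⟨a | a | a, b | b | b⟩ <;> rw [a, b] <;>
          first | (exfalso; exact c21 ⟨g, hg, a, b⟩) | (exfalso; exact c11 ⟨g, hg, a, b⟩) |
            (exfalso; exact c22 ⟨g, hg, a, b⟩) | linarith)
    nlinarith
  by_cases c12 : ∃ g ∈ S, v g = 1 ∧ w g = 2
  · obtain ⟨g, hg, e1, e2⟩ := c12
    have h2 := H1 g hg
    rw [e1, e2] at h2
    have h3 := L (-(2 * (s - 1))) s (-2) (fun g hg => by
        rcases hcase g hg with ⟨a | a | a, b | b | b⟩ <;> rw [a, b] <;>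
          first | (exfalso; exact c21 ⟨g, hg, a, b⟩) | (exfalso; exact c11 ⟨g, hg, a, b⟩) |
            (exfalso; exact c22 ⟨g, hg, a, b⟩) | (exfalso; exact c23 ⟨g, hg, a, b⟩) | linarith)
    nlinarith
  by_cases c13 : ∃ g ∈ S, v g = 1 ∧ w g = 3
  · obtain ⟨g, hg, e1, e2⟩ := c13
    have h2 := H1 g hg
    rw [e1, e2] at h2
    have h3 := L (-(3 * (s - 1))) s (-3) (fun g hg => by
        rcases hcase g hg with ⟨a | a | a, b | b | b⟩ <;> rw [a, b] <;>
          first | (exfalso; exact c21 ⟨g, hg, a, b⟩) | (exfalso; exact c11 ⟨g, hg, a, b⟩) |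
            (exfalso; exact c22 ⟨g, hg, a, b⟩) | (exfalso; exact c23 ⟨g, hg, a, b⟩) |
            (exfalso; exact c12 ⟨g, hg, a, b⟩) | linarith)
    nlinarith
  have hz : T = 0 := by
    rw [hT]
    refine Finset.sum_eq_zero fun g hg => ?_
    rcases hcase g hg with ⟨a | a | a, b | b | b⟩ <;>
      first | exact a | (exfalso; exact c21 ⟨g, hg, a, b⟩) | (exfalso; exact c11 ⟨g, hg, a, b⟩) |
        (exfalso; exact c22 ⟨g, hg, a, b⟩) | (exfalso; exact c23 ⟨g, hg, a, b⟩) |
        (exfalso; exact c12 ⟨g, hg, a, b⟩) | (exfalso; exact c13 ⟨g, hg, a, b⟩)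
  rw [hz]
  nlinarith

/-- the arithmetic of both kinds of values -/
theorem pairkey {G : Type*} [DecidableEq G] (S : Finset G) (v w : G → ℤ) (V : ℤ) (hV : 0 ≤ V)
    (hv : (∀ g ∈ S, 1 ≤ v g ∧ v g ≤ 3) ∨ ∀ g ∈ S, 0 ≤ v g ∧ v g ≤ 2)
    (hw : ∀ g ∈ S, 1 ≤ w g ∧ w g ≤ 3)
    (H1 : ∀ g ∈ S, v g * ((∑ h ∈ S, w h) - w g) ≤ V * w g)
    (H2 : ∀ g ∈ S, w g < v g → v g * ((∑ h ∈ S, w h) - w g) < V * w g) :
    ((S.card : ℤ) - 1) * ∑ g ∈ S, v g ≤ (S.card : ℤ) * V := by
  rcases hv with hv | hv
  · exact key S v w V hV hv hw H1 H2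
  · exact key0 S v w V hV hv hw H1

/-! ### The allocation with the most positive agents, then the largest product, then the largest sum -/

/-- the value in units of agent `i` for the bundle of `j` -/
def val {n m : ℕ} (u : Fin n → Fin m → ℤ) (A : Fin m → Fin n) (i j : Fin n) : ℤ :=
  ∑ g ∈ bundle A j, u i g

/-- `1` for `0`, and `M t` for `t > 0` -/
def ff (M t : ℤ) : ℤ := if t = 0 then 1 else M * t

/-- the lexicographic optimum -/
def Lex {n m : ℕ} (u : Fin n → Fin m → ℤ) (M : ℤ) (A : Fin m → Fin n) : Prop :=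
  ∀ B : Fin m → Fin n, ∏ i, ff M (val u B i i) < ∏ i, ff M (val u A i i) ∨
    (∏ i, ff M (val u B i i) = ∏ i, ff M (val u A i i) ∧ ∑ i, val u B i i ≤ ∑ i, val u A i i)

lemma exists_lex {n m : ℕ} (hn : 0 < n) (u : Fin n → Fin m → ℤ) (M : ℤ) :
    ∃ A : Fin m → Fin n, Lex u M A := by
  classical
  have : Nonempty (Fin m → Fin n) := ⟨fun _ => ⟨0, hn⟩⟩
  obtain ⟨A₀, hA₀⟩ := Finite.exists_max (fun A : Fin m → Fin n => ∏ i, ff M (val u A i i))
  obtain ⟨A, hA, hmax⟩ := Finset.exists_max_image
    ((univ : Finset (Fin m → Fin n)).filter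
      (fun A => ∏ i, ff M (val u A i i) = ∏ i, ff M (val u A₀ i i)))
    (fun A => ∑ i, val u A i i) ⟨A₀, by simp⟩
  have hAA : ∏ i, ff M (val u A i i) = ∏ i, ff M (val u A₀ i i) := (Finset.mem_filter.1 hA).2
  refine ⟨A, fun B => ?_⟩
  rcases lt_or_eq_of_le (hA₀ B) with h | h
  · left
    rw [hAA]
    exact h
  · right
    refine ⟨by rw [hAA]; exact h, hmax B ?_⟩
    rw [Finset.mem_filter]
    exact ⟨Finset.mem_univ _, h⟩

lemma ff_pos {M t : ℤ} (hM : 2 ≤ M) (ht : 0 ≤ t) : 0 < ff M t := by
  unfold ff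
  split_ifs with h
  · norm_num
  · have : 0 < t := lt_of_le_of_ne ht (Ne.symm h)
    positivity

lemma ff_lt {M s t : ℤ} (hM : 2 ≤ M) (hs : 0 ≤ s) (hst : s < t) : ff M s < ff M t := by
  unfold ff
  rw [if_neg (by omega : ¬ t = 0)]
  split_ifs with h
  · nlinarith
  · exact mul_lt_mul_of_pos_left hst (by linarith)

lemma ff_eq {M t : ℤ} (ht : 0 < t) : ff M t = M * t := if_neg (by omega)

lemma lex_transfer {n m : ℕ} {u : Fin n → Fin m → ℤ} (hu : ∀ i g, 0 ≤ u i g) {M : ℤ} (hM : 2 ≤ M)
    {A : Fin m → Fin n} (hA : Lex u M A) {i j : Fin n} (hij : i ≠ j) {g : Fin m}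
    (hg : g ∈ bundle A j) :
    ff M (val u A i i + u i g) * ff M (val u A j j - u j g) <
        ff M (val u A i i) * ff M (val u A j j) ∨
      (ff M (val u A i i + u i g) * ff M (val u A j j - u j g) =
        ff M (val u A i i) * ff M (val u A j j) ∧ u i g ≤ u j g) := by
  classical
  have hgj : A g = j := (Finset.mem_filter.1 hg).2
  have hgi : g ∉ bundle A i := by
    intro h
    exact hij ((Finset.mem_filter.1 h).2.symm.trans hgj)
  set B : Fin m → Fin n := Function.update A g i with hB
  have hBi : bundle B i = insert g (bundle A i) := by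
    ext h
    simp only [bundle, Finset.mem_filter, Finset.mem_univ, true_and, Finset.mem_insert, hB]
    by_cases hh : h = g
    · subst hh; simp
    · rw [Function.update_of_ne hh]; simp [hh]
  have hBj : bundle B j = (bundle A j).erase g := by
    ext h
    simp only [bundle, Finset.mem_filter, Finset.mem_univ, true_and, Finset.mem_erase, hB]
    by_cases hh : h = g
    · subst hh; simp [hij]
    · rw [Function.update_of_ne hh]; simp [hh]
  have hBk : ∀ k, k ≠ i → k ≠ j → bundle B k = bundle A k := by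
    intro k hki hkj
    ext h
    simp only [bundle, Finset.mem_filter, Finset.mem_univ, true_and, hB]
    by_cases hh : h = g
    · subst hh
      rw [Function.update_self, hgj]
      constructor
      · intro h1; exact absurd h1.symm hki
      · intro h1; exact absurd h1.symm hkj
    · rw [Function.update_of_ne hh]
  have e1 : val u B i i = val u A i i + u i g := by
    unfold val
    rw [hBi, Finset.sum_insert hgi]
    ring
  have e2 : val u B j j = val u A j j - u j g := by
    unfold val
    rw [hBj]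
    have := Finset.sum_erase_add (bundle A j) (u j) hg
    linarith
  have hjm : j ∈ (univ : Finset (Fin n)).erase i := Finset.mem_erase.2 ⟨hij.symm, Finset.mem_univ j⟩
  have hrk : ∀ k ∈ ((univ : Finset (Fin n)).erase i).erase j, val u B k k = val u A k k := by
    intro k hk
    rw [Finset.mem_erase, Finset.mem_erase] at hk
    unfold val
    rw [hBk k hk.2.1 hk.1]
  have hprod : ∀ C : Fin m → Fin n, ∏ k, ff M (val u C k k) =
      ff M (val u C i i) * (ff M (val u C j j) *
        ∏ k ∈ ((univ : Finset (Fin n)).erase i).erase j, ff M (val u C k k)) := by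
    intro C
    rw [Finset.mul_prod_erase _ (fun k => ff M (val u C k k)) hjm,
      Finset.mul_prod_erase _ (fun k => ff M (val u C k k)) (Finset.mem_univ i)]
  have hsum : ∀ C : Fin m → Fin n, ∑ k, val u C k k =
      val u C i i + (val u C j j +
        ∑ k ∈ ((univ : Finset (Fin n)).erase i).erase j, val u C k k) := by
    intro C
    rw [Finset.add_sum_erase _ (fun k => val u C k k) hjm,
      Finset.add_sum_erase _ (fun k => val u C k k) (Finset.mem_univ i)]
  have hrest : ∏ k ∈ ((univ : Finset (Fin n)).erase i).erase j, ff M (val u B k k) =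
      ∏ k ∈ ((univ : Finset (Fin n)).erase i).erase j, ff M (val u A k k) :=
    Finset.prod_congr rfl fun k hk => by rw [hrk k hk]
  have hrest2 : ∑ k ∈ ((univ : Finset (Fin n)).erase i).erase j, val u B k k =
      ∑ k ∈ ((univ : Finset (Fin n)).erase i).erase j, val u A k k :=
    Finset.sum_congr rfl fun k hk => hrk k hk
  have hpos : 0 < ∏ k ∈ ((univ : Finset (Fin n)).erase i).erase j, ff M (val u A k k) :=
    Finset.prod_pos fun k _ => ff_pos hM (Finset.sum_nonneg fun g _ => hu k g)
  rcases hA B with h | ⟨h, h'⟩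
  · left
    rw [hprod B, hprod A, hrest, e1, e2, ← mul_assoc, ← mul_assoc] at h
    exact lt_of_mul_lt_mul_right h hpos.le
  · right
    rw [hprod B, hprod A, hrest, e1, e2, ← mul_assoc, ← mul_assoc] at h
    have h1 := mul_right_cancel₀ hpos.ne' h
    refine ⟨h1, ?_⟩
    rw [hsum B, hsum A, hrest2, e1, e2] at h'
    linarith

lemma exists_periodic {n : ℕ} (hn : 0 < n) (e : Fin n → Fin n) : (Function.periodicPts e).Nonempty := by
  obtain ⟨a, b, hab, h⟩ := Finite.exists_ne_map_eq_of_infinite
    (fun t : ℕ => e^[t] (⟨0, hn⟩ : Fin n))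
  have key : ∀ a b : ℕ, a < b → e^[a] (⟨0, hn⟩ : Fin n) = e^[b] (⟨0, hn⟩ : Fin n) →
      (Function.periodicPts e).Nonempty := by
    intro a b hab h
    refine ⟨e^[a] (⟨0, hn⟩ : Fin n), Function.mk_mem_periodicPts (n := b - a) (by omega) ?_⟩
    change e^[b - a] (e^[a] (⟨0, hn⟩ : Fin n)) = e^[a] (⟨0, hn⟩ : Fin n)
    rw [← Function.iterate_add_apply, Nat.sub_add_cancel hab.le]
    exact h.symm
  rcases lt_or_gt_of_ne hab with h1 | h1
  · exact key a b h1 h
  · exact key b a h1 h.symm

lemma unenvied {n m : ℕ} (hn : 0 < n) {u : Fin n → Fin m → ℤ} (hu : ∀ i g, 0 ≤ u i g) {M : ℤ}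
    (hM : 2 ≤ M) {A : Fin m → Fin n} (hA : Lex u M A) : ∃ k, ∀ i, val u A i k ≤ val u A i i := by
  classical
  by_contra hcon
  push Not at hcon
  choose e he using hcon
  have hbij := Function.bijOn_periodicPts e
  obtain ⟨k0, hk0⟩ := exists_periodic hn e
  set B : Fin m → Fin n := fun g => if A g ∈ Function.periodicPts e then e (A g) else A g with hB
  have hB1 : ∀ k ∈ Function.periodicPts e, bundle B (e k) = bundle A k := by
    intro k hk
    ext g
    simp only [bundle, Finset.mem_filter, Finset.mem_univ, true_and, hB]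
    by_cases hg : A g ∈ Function.periodicPts e
    · rw [if_pos hg]
      exact ⟨fun h => hbij.injOn hg hk h, fun h => by rw [h]⟩
    · rw [if_neg hg]
      constructor
      · intro h
        exact absurd (h ▸ hbij.mapsTo hk) hg
      · intro h
        exact absurd (h ▸ hk) hg
  have hB2 : ∀ i, i ∉ Function.periodicPts e → bundle B i = bundle A i := by
    intro i hi
    ext g
    simp only [bundle, Finset.mem_filter, Finset.mem_univ, true_and, hB]
    by_cases hg : A g ∈ Function.periodicPts e
    · rw [if_pos hg]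
      constructor
      · intro h
        exact absurd (h ▸ hbij.mapsTo hg) hi
      · intro h
        exact absurd (h ▸ hg) hi
    · rw [if_neg hg]
  have hlt : ∀ i ∈ Function.periodicPts e, val u A i i < val u B i i := by
    intro i hi
    obtain ⟨k, hk, rfl⟩ := hbij.surjOn hi
    have h1 : val u B (e k) (e k) = val u A (e k) k := by
      unfold val
      rw [hB1 k hk]
    rw [h1]
    exact he k
  have heq : ∀ i, i ∉ Function.periodicPts e → val u B i i = val u A i i := by
    intro i hi
    unfold val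
    rw [hB2 i hi]
  have hnn : ∀ i j, 0 ≤ val u A i j := fun i j => Finset.sum_nonneg fun g _ => hu i g
  have hprod : ∏ i, ff M (val u A i i) < ∏ i, ff M (val u B i i) := by
    refine Finset.prod_lt_prod (fun i _ => ff_pos hM (hnn i i)) (fun i _ => ?_)
      ⟨k0, Finset.mem_univ _, ff_lt hM (hnn _ _) (hlt k0 hk0)⟩
    by_cases hi : i ∈ Function.periodicPts e
    · exact (ff_lt hM (hnn _ _) (hlt i hi)).le
    · rw [heq i hi]
  rcases hA B with h | h
  · linarith
  · linarith [h.1]

lemma lex_pareto {n m : ℕ} {u : Fin n → Fin m → ℤ} (hu : ∀ i g, 0 ≤ u i g) {M : ℤ}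
    (hM : 2 ≤ M) {A : Fin m → Fin n} (hA : Lex u M A) (B : Fin m → Fin n)
    (hB : ∀ i, val u A i i ≤ val u B i i) (i : Fin n) : val u B i i = val u A i i := by
  by_contra hne
  have hnn : ∀ i j, 0 ≤ val u A i j := fun i j => Finset.sum_nonneg fun g _ => hu i g
  have hprod : ∏ i, ff M (val u A i i) < ∏ i, ff M (val u B i i) := by
    refine Finset.prod_lt_prod (fun i _ => ff_pos hM (hnn i i)) (fun k _ => ?_)
      ⟨i, Finset.mem_univ _, ff_lt hM (hnn _ _) (lt_of_le_of_ne (hB i) (Ne.symm hne))⟩
    rcases eq_or_lt_of_le (hB k) with h | h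
    · rw [h]
    · exact (ff_lt hM (hnn _ _) h).le
  rcases hA B with h | h
  · linarith
  · linarith [h.1]

lemma val_move {n m : ℕ} (u : Fin n → Fin m → ℤ) (A A' : Fin m → Fin n)
    (h2 : ∀ g, (¬ ∀ i, u i g = 0) → A' g = A g)
    (i j : Fin n) : val u A' i j = val u A i j := by
  classical
  unfold val bundle
  rw [Finset.sum_filter, Finset.sum_filter]
  refine Finset.sum_congr rfl fun g _ => ?_
  by_cases h : ∀ i, u i g = 0
  · rw [h i, ite_self, ite_self]
  · rw [h2 g h]

theorem exists_int {n m : ℕ} (hn : 0 < n) (u : Fin n → Fin m → ℤ)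
    (hu : ∀ i, (∀ g, 1 ≤ u i g ∧ u i g ≤ 3) ∨ ∀ g, 0 ≤ u i g ∧ u i g ≤ 2) :
    ∃ A : Fin m → Fin n, (∀ i j, (bundle A j).Nonempty →
      (((bundle A j).card : ℤ) - 1) * val u A i j ≤ ((bundle A j).card : ℤ) * val u A i i) ∧
      ∀ B : Fin m → Fin n, (∀ i, val u A i i ≤ val u B i i) → ∀ i, val u B i i = val u A i i := by
  classical
  have hu0 : ∀ i g, 0 ≤ u i g := by
    intro i g
    rcases hu i with h | h
    · have := h g; omega
    · exact (h g).1
  have hu3 : ∀ i g, u i g ≤ 3 := by
    intro i g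
    rcases hu i with h | h
    · exact (h g).2
    · have := h g; omega
  obtain ⟨M, hMd⟩ : ∃ M : ℤ, M = 3 * (m : ℤ) + 2 := ⟨_, rfl⟩
  have hM : 2 ≤ M := by omega
  obtain ⟨A₀, hA₀⟩ := exists_lex hn u M
  obtain ⟨k, hk⟩ := unenvied hn hu0 hM hA₀
  obtain ⟨A, hAd⟩ : ∃ A : Fin m → Fin n, A = fun g => if ∀ i, u i g = 0 then k else A₀ g :=
    ⟨_, rfl⟩
  have hmv : ∀ i j, val u A i j = val u A₀ i j := by
    refine val_move u A₀ A (fun g hg => ?_)
    rw [hAd]
    exact if_neg hg
  have hA : Lex u M A := by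
    intro B
    have := hA₀ B
    simp only [← hmv] at this
    exact this
  have hkA : ∀ i, val u A i k ≤ val u A i i := by
    intro i
    rw [hmv, hmv]
    exact hk i
  have hnn : ∀ i j, 0 ≤ val u A i j := fun i j => Finset.sum_nonneg fun g _ => hu0 i g
  refine ⟨A, fun i j hne => ?_, lex_pareto hu0 hM hA⟩
  have hs1 : (1 : ℤ) ≤ ((bundle A j).card : ℤ) := by exact_mod_cast Finset.card_pos.2 hne
  have hVn := hnn i i
  by_cases hjk : j = k
  · rw [hjk] at hs1 ⊢
    have h1 := hkA i
    have h2 := hnn i k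
    nlinarith
  by_cases hij : i = j
  · rw [hij]
    have h2 := hnn j j
    nlinarith
  -- every good of `A_j` has a positive value for `j`
  have hw : ∀ g ∈ bundle A j, 1 ≤ u j g := by
    intro g hg
    have hgj : A g = j := (Finset.mem_filter.1 hg).2
    have hz : ¬ ∀ i, u i g = 0 := by
      intro h
      apply hjk
      rw [← hgj, hAd]
      exact if_pos h
    push Not at hz
    obtain ⟨i', hi'⟩ := hz
    by_contra hcon
    have e0 : u j g = 0 := by have := hu0 j g; omega
    have hne' : i' ≠ j := by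
      rintro rfl
      exact hi' e0
    have ha : 0 < u i' g := lt_of_le_of_ne (hu0 i' g) (Ne.symm hi')
    have h1 := lex_transfer hu0 hM hA hne' hg
    rw [e0, sub_zero] at h1
    have h2 : ff M (val u A i' i') < ff M (val u A i' i' + u i' g) :=
      ff_lt hM (hnn _ _) (by linarith)
    have h3 : 0 < ff M (val u A j j) := ff_pos hM (hnn _ _)
    have h4 := mul_lt_mul_of_pos_right h2 h3
    rcases h1 with h1 | h1
    · linarith
    · linarith [h1.1]
  rcases eq_or_lt_of_le hs1 with h1 | hs2
  · rw [← h1]; linarith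
  have hs2' : (2 : ℤ) ≤ ((bundle A j).card : ℤ) := by omega
  -- the value of `A_j` without one good
  have hWb : ∀ g ∈ bundle A j, 1 ≤ val u A j j - u j g := by
    intro g hg
    have h2 := Finset.sum_erase_add (bundle A j) (u j) hg
    have h3 : ((bundle A j).erase g).card = (bundle A j).card - 1 := Finset.card_erase_of_mem hg
    have h4 : (((bundle A j).erase g).card : ℤ) * 1 ≤ ∑ h ∈ (bundle A j).erase g, u j h := by
      rw [← nsmul_eq_mul]
      exact Finset.card_nsmul_le_sum _ _ _ fun h hh => hw h (Finset.mem_of_mem_erase hh)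
    unfold val
    have h5 : 1 ≤ ((bundle A j).erase g).card := by
      have : 2 ≤ (bundle A j).card := by exact_mod_cast hs2'
      omega
    have h6 : (1 : ℤ) ≤ (((bundle A j).erase g).card : ℤ) := by exact_mod_cast h5
    linarith
  have hWm : val u A j j ≤ 3 * (m : ℤ) := by
    have h2 : val u A j j ≤ ((bundle A j).card : ℤ) * 3 := by
      unfold val
      rw [← nsmul_eq_mul]
      exact Finset.sum_le_card_nsmul _ _ _ fun g _ => hu3 j g
    have h3 : (bundle A j).card ≤ m := by
      have := Finset.card_le_univ (bundle A j)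
      simpa using this
    have h4 : ((bundle A j).card : ℤ) ≤ (m : ℤ) := by exact_mod_cast h3
    linarith
  rcases eq_or_lt_of_le hVn with hV0 | hV1
  · -- an agent with value 0 values nothing in `A_j`
    have hz : ∀ g ∈ bundle A j, u i g = 0 := by
      intro g hg
      by_contra hcon
      have ha : 1 ≤ u i g := by have := hu0 i g; omega
      have hb := hWb g hg
      have hW : 0 < val u A j j := by have := hw g hg; linarith
      have h1 := lex_transfer hu0 hM hA hij hg
      rw [← hV0, zero_add, ff_eq (by linarith : 0 < u i g),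
        ff_eq (by linarith : 0 < val u A j j - u j g), ff_eq hW] at h1
      have h2 : ff M 0 = 1 := if_pos rfl
      rw [h2, one_mul] at h1
      have h3 : M * val u A j j < M * u i g * (M * (val u A j j - u j g)) := by
        have h4 : val u A j j < M := by linarith
        have h5 : 1 ≤ u i g * (val u A j j - u j g) := by nlinarith
        have h6 : M * val u A j j < M * M := mul_lt_mul_of_pos_left h4 (by linarith)
        have h7 : M * M * 1 ≤ M * M * (u i g * (val u A j j - u j g)) :=
          mul_le_mul_of_nonneg_left h5 (by positivity)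
        nlinarith
      rcases h1 with h1 | h1
      · linarith
      · linarith [h1.1]
    have h2 : val u A i j = 0 := Finset.sum_eq_zero hz
    rw [h2, ← hV0]
    simp
  · have hMM : 0 < M * M := by positivity
    have hT : ∀ g ∈ bundle A j,
        (u i g * (val u A j j - u j g) < val u A i i * u j g) ∨
        (u i g * (val u A j j - u j g) = val u A i i * u j g ∧ u i g ≤ u j g) := by
      intro g hg
      have hb := hWb g hg
      have hW : 0 < val u A j j := by have := hw g hg; linarith
      have h1 := lex_transfer hu0 hM hA hij hg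
      rw [ff_eq (by have := hu0 i g; linarith : 0 < val u A i i + u i g),
        ff_eq (by linarith : 0 < val u A j j - u j g), ff_eq hW, ff_eq hV1] at h1
      rcases h1 with h1 | ⟨h1, h1'⟩
      · left
        have h2 : M * M * ((val u A i i + u i g) * (val u A j j - u j g)) <
            M * M * (val u A i i * val u A j j) := by linarith
        have h3 := lt_of_mul_lt_mul_left h2 hMM.le
        nlinarith
      · right
        have h2 : M * M * ((val u A i i + u i g) * (val u A j j - u j g)) =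
            M * M * (val u A i i * val u A j j) := by linarith
        have h3 := mul_left_cancel₀ hMM.ne' h2
        exact ⟨by nlinarith, h1'⟩
    have hk := pairkey (bundle A j) (u i) (u j) (val u A i i) hVn
      (by
        rcases hu i with h | h
        · exact Or.inl fun g _ => h g
        · exact Or.inr fun g _ => h g)
      (fun g hg => ⟨hw g hg, hu3 j g⟩)
      (fun g hg => by
        rcases hT g hg with h | h
        · exact h.le
        · exact h.1.le)
      (fun g hg hlt => by
        rcases hT g hg with h | h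
        · exact h
        · exact absurd h.2 (not_le.2 hlt))
    exact hk

lemma sum_sum_erase {G : Type*} [DecidableEq G] (S : Finset G) (w : G → ℝ) :
    ∑ g ∈ S, ∑ h ∈ S.erase g, w h = ((S.card : ℝ) - 1) * ∑ h ∈ S, w h := by
  have h1 : ∀ g ∈ S, ∑ h ∈ S.erase g, w h = (∑ h ∈ S, w h) - w g := by
    intro g hg
    have := Finset.sum_erase_add S w hg
    linarith
  rw [Finset.sum_congr rfl h1, Finset.sum_sub_distrib, Finset.sum_const, nsmul_eq_mul]
  ring

lemma own_pos {n m : ℕ} {v : Fin n → Fin m → ℝ} (hv : ∀ i g, 0 ≤ v i g) {x : Fin n → ℝ}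
    {A : Fin m → Fin n} (hA : Best v x A) (i : Fin n) : 0 < own v A i := by
  rcases eq_or_lt_of_le (Finset.sum_nonneg fun g (_ : g ∈ bundle A i) => hv i g) with h | h
  · exfalso
    have := hA.1
    rw [Finset.prod_eq_zero (Finset.mem_univ i) h.symm] at this
    exact lt_irrefl _ this
  · exact h

/-- moving one good from `j` to `i` -/
lemma transfer {n m : ℕ} {v : Fin n → Fin m → ℝ} (hv : ∀ i g, 0 ≤ v i g) {x : Fin n → ℝ}
    {A : Fin m → Fin n} (hA : Best v x A) {i j : Fin n} (hij : i ≠ j) {g : Fin m}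
    (hg : g ∈ bundle A j) :
    v i g * (own v A j - v j g) < own v A i * v j g ∨
      (v i g * (own v A j - v j g) = own v A i * v j g ∧ v i g / x i ≤ v j g / x j) := by
  classical
  have hgj : A g = j := (Finset.mem_filter.1 hg).2
  have hgi : g ∉ bundle A i := by
    intro h
    exact hij ((Finset.mem_filter.1 h).2.symm.trans hgj)
  set B : Fin m → Fin n := Function.update A g i with hB
  have hBi : bundle B i = insert g (bundle A i) := by
    ext h
    simp only [bundle, Finset.mem_filter, Finset.mem_univ, true_and, Finset.mem_insert, hB]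
    by_cases hh : h = g
    · subst hh; simp
    · rw [Function.update_of_ne hh]; simp [hh]
  have hBj : bundle B j = (bundle A j).erase g := by
    ext h
    simp only [bundle, Finset.mem_filter, Finset.mem_univ, true_and, Finset.mem_erase, hB]
    by_cases hh : h = g
    · subst hh; simp [hij]
    · rw [Function.update_of_ne hh]; simp [hh]
  have hBk : ∀ k, k ≠ i → k ≠ j → bundle B k = bundle A k := by
    intro k hki hkj
    ext h
    simp only [bundle, Finset.mem_filter, Finset.mem_univ, true_and, hB]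
    by_cases hh : h = g
    · subst hh
      rw [Function.update_self, hgj]
      constructor
      · intro h1; exact absurd h1.symm hki
      · intro h1; exact absurd h1.symm hkj
    · rw [Function.update_of_ne hh]
  have e1 : own v B i = v i g + own v A i := by
    unfold own
    rw [hBi, Finset.sum_insert hgi]
  have e2 : own v B j = own v A j - v j g := by
    unfold own
    rw [hBj]
    have := Finset.sum_erase_add (bundle A j) (v j) hg
    linarith
  have hjm : j ∈ (univ : Finset (Fin n)).erase i := Finset.mem_erase.2 ⟨hij.symm, Finset.mem_univ j⟩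
  have hrk : ∀ k ∈ ((univ : Finset (Fin n)).erase i).erase j, own v B k = own v A k := by
    intro k hk
    rw [Finset.mem_erase, Finset.mem_erase] at hk
    unfold own
    rw [hBk k hk.2.1 hk.1]
  have hprod : ∀ C : Fin m → Fin n, ∏ k, own v C k =
      own v C i * (own v C j * ∏ k ∈ ((univ : Finset (Fin n)).erase i).erase j, own v C k) := by
    intro C
    rw [Finset.mul_prod_erase _ (fun k => own v C k) hjm,
      Finset.mul_prod_erase _ (fun k => own v C k) (Finset.mem_univ i)]
  have hsum : ∀ C : Fin m → Fin n, ∑ k, own v C k / x k =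
      own v C i / x i + (own v C j / x j +
        ∑ k ∈ ((univ : Finset (Fin n)).erase i).erase j, own v C k / x k) := by
    intro C
    rw [Finset.add_sum_erase _ (fun k => own v C k / x k) hjm,
      Finset.add_sum_erase _ (fun k => own v C k / x k) (Finset.mem_univ i)]
  have hrest : ∏ k ∈ ((univ : Finset (Fin n)).erase i).erase j, own v B k =
      ∏ k ∈ ((univ : Finset (Fin n)).erase i).erase j, own v A k := Finset.prod_congr rfl hrk
  have hrest2 : ∑ k ∈ ((univ : Finset (Fin n)).erase i).erase j, own v B k / x k =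
      ∑ k ∈ ((univ : Finset (Fin n)).erase i).erase j, own v A k / x k :=
    Finset.sum_congr rfl fun k hk => by rw [hrk k hk]
  have hpos : 0 < ∏ k ∈ ((univ : Finset (Fin n)).erase i).erase j, own v A k :=
    Finset.prod_pos fun k _ => own_pos hv hA k
  rcases hA.2 B with h | ⟨h, h'⟩
  · left
    rw [hprod B, hprod A, hrest, e1, e2, ← mul_assoc, ← mul_assoc] at h
    have := lt_of_mul_lt_mul_right h hpos.le
    nlinarith
  · right
    rw [hprod B, hprod A, hrest, e1, e2, ← mul_assoc, ← mul_assoc] at h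
    have h1 := mul_right_cancel₀ hpos.ne' h
    refine ⟨by nlinarith, ?_⟩
    rw [hsum B, hsum A, hrest2, e1, e2, add_div, sub_div] at h'
    linarith

/-- the values in units -/
lemma exists_units {n m : ℕ} {v : Fin n → Fin m → ℝ} {x : Fin n → ℝ}
    (hv : ∀ i, (∀ g, v i g = x i ∨ v i g = 2 * x i ∨ v i g = 3 * x i) ∨
      ∀ g, v i g = 0 ∨ v i g = x i ∨ v i g = 2 * x i) :
    ∃ u : Fin n → Fin m → ℤ, (∀ i g, v i g = x i * u i g) ∧
      ∀ i, (∀ g, 1 ≤ u i g ∧ u i g ≤ 3) ∨ ∀ g, 0 ≤ u i g ∧ u i g ≤ 2 := by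
  have h : ∀ i, ∃ f : Fin m → ℤ, (∀ g, v i g = x i * f g) ∧
      ((∀ g, 1 ≤ f g ∧ f g ≤ 3) ∨ ∀ g, 0 ≤ f g ∧ f g ≤ 2) := by
    intro i
    rcases hv i with h | h
    · have h1 : ∀ g, ∃ a : ℤ, (1 ≤ a ∧ a ≤ 3) ∧ v i g = x i * a := by
        intro g
        rcases h g with h | h | h
        · exact ⟨1, by norm_num, by rw [h]; push_cast; ring⟩
        · exact ⟨2, by norm_num, by rw [h]; push_cast; ring⟩
        · exact ⟨3, by norm_num, by rw [h]; push_cast; ring⟩
      choose f hf1 hf2 using h1
      exact ⟨f, hf2, Or.inl hf1⟩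
    · have h1 : ∀ g, ∃ a : ℤ, (0 ≤ a ∧ a ≤ 2) ∧ v i g = x i * a := by
        intro g
        rcases h g with h | h | h
        · exact ⟨0, by norm_num, by rw [h]; push_cast; ring⟩
        · exact ⟨1, by norm_num, by rw [h]; push_cast; ring⟩
        · exact ⟨2, by norm_num, by rw [h]; push_cast; ring⟩
      choose f hf1 hf2 using h1
      exact ⟨f, hf2, Or.inr hf1⟩
  choose u hu1 hu2 using h
  exact ⟨u, hu1, hu2⟩

lemma efr_exists {n m : ℕ} (hn : 0 < n) {v : Fin n → Fin m → ℝ} {x : Fin n → ℝ} (hx : ∀ i, 0 < x i)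
    (hv : ∀ i, (∀ g, v i g = x i ∨ v i g = 2 * x i ∨ v i g = 3 * x i) ∨
      ∀ g, v i g = 0 ∨ v i g = x i ∨ v i g = 2 * x i) :
    ∃ A : Fin m → Fin n, IsEFR v A ∧ Pareto v A := by
  classical
  obtain ⟨u, hu, hty⟩ := exists_units hv
  obtain ⟨A, hA, hPO⟩ := exists_int hn u hty
  have hownu : ∀ i (S : Finset (Fin m)), ∑ g ∈ S, v i g = x i * ((∑ g ∈ S, u i g : ℤ) : ℝ) := by
    intro i S
    rw [Int.cast_sum, Finset.mul_sum]
    exact Finset.sum_congr rfl fun g _ => hu i g
  have howv : ∀ (B : Fin m → Fin n) i, own v B i = x i * ((val u B i i : ℤ) : ℝ) := fun B i =>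
    hownu i (bundle B i)
  refine ⟨A, fun i j hne => ?_, fun B hB i => ?_⟩
  swap
  · have h1 : ∀ i, val u A i i ≤ val u B i i := by
      intro i
      have h2 := hB i
      rw [howv, howv] at h2
      have h3 := le_of_mul_le_mul_left h2 (hx i)
      exact_mod_cast h3
    rw [howv, howv, hPO B h1 i]
  have hs1 : (1 : ℝ) ≤ ((bundle A j).card : ℝ) := by exact_mod_cast Finset.card_pos.2 hne
  rw [sum_sum_erase, div_le_iff₀ (by linarith)]
  have hk := hA i j hne
  unfold val at hk
  have hk' : (((bundle A j).card : ℝ) - 1) * ((∑ g ∈ bundle A j, u i g : ℤ) : ℝ) ≤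
      ((bundle A j).card : ℝ) * ((∑ g ∈ bundle A i, u i g : ℤ) : ℝ) := by
    exact_mod_cast hk
  unfold own
  rw [hownu i, hownu i]
  have := mul_le_mul_of_nonneg_left hk' (hx i).le
  nlinarith

lemma best_efr {n m : ℕ} {v : Fin n → Fin m → ℝ} {x : Fin n → ℝ} (hx : ∀ i, 0 < x i)
    (hv : ∀ i, (∀ g, v i g = x i ∨ v i g = 2 * x i ∨ v i g = 3 * x i) ∨
      ∀ g, v i g = 0 ∨ v i g = x i ∨ v i g = 2 * x i)
    (hw : ∀ g, ∃ i, 0 < v i g) {A : Fin m → Fin n} (hA : Best v x A) : IsEFR v A := by
  classical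
  obtain ⟨u, hu, hty⟩ := exists_units hv
  have hu0 : ∀ i g, 0 ≤ u i g := by
    intro i g
    rcases hty i with h | h
    · have := h g; omega
    · exact (h g).1
  have hu3 : ∀ i g, u i g ≤ 3 := by
    intro i g
    rcases hty i with h | h
    · exact (h g).2
    · have := h g; omega
  have hv0 : ∀ i g, 0 ≤ v i g := by
    intro i g
    rw [hu i g]
    have h1 : (0 : ℝ) ≤ (u i g : ℝ) := by exact_mod_cast hu0 i g
    exact mul_nonneg (hx i).le h1
  have hownu : ∀ i (S : Finset (Fin m)), ∑ g ∈ S, v i g = x i * ((∑ g ∈ S, u i g : ℤ) : ℝ) := by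
    intro i S
    rw [Int.cast_sum, Finset.mul_sum]
    exact Finset.sum_congr rfl fun g _ => hu i g
  intro i j hne
  have hs1 : (1 : ℝ) ≤ ((bundle A j).card : ℝ) := by exact_mod_cast Finset.card_pos.2 hne
  rw [sum_sum_erase, div_le_iff₀ (by linarith)]
  by_cases hij : i = j
  · subst hij
    have := own_pos hv0 hA i
    change _ * own v A i ≤ own v A i * _
    nlinarith
  · have hT : ∀ i, i ≠ j → ∀ g ∈ bundle A j,
        (u i g * ((∑ h ∈ bundle A j, u j h) - u j g) < (∑ h ∈ bundle A i, u i h) * u j g) ∨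
        (u i g * ((∑ h ∈ bundle A j, u j h) - u j g) = (∑ h ∈ bundle A i, u i h) * u j g ∧
          u i g ≤ u j g) := by
      intro i hij g hg
      have hxx : 0 < x i * x j := mul_pos (hx i) (hx j)
      have h1 := transfer hv0 hA hij hg
      unfold own at h1
      rw [hownu j, hownu i, hu i g, hu j g] at h1
      rcases h1 with h1 | ⟨h1, h2⟩
      · left
        have h3 : (x i * x j) * ((u i g : ℝ) * (((∑ h ∈ bundle A j, u j h : ℤ) : ℝ) - u j g)) <
            (x i * x j) * ((((∑ h ∈ bundle A i, u i h : ℤ) : ℝ)) * u j g) := by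
          nlinarith
        have h4 := lt_of_mul_lt_mul_left h3 hxx.le
        exact_mod_cast h4
      · right
        have h3 : (x i * x j) * ((u i g : ℝ) * (((∑ h ∈ bundle A j, u j h : ℤ) : ℝ) - u j g)) =
            (x i * x j) * ((((∑ h ∈ bundle A i, u i h : ℤ) : ℝ)) * u j g) := by
          linarith
        have h4 := mul_left_cancel₀ hxx.ne' h3
        rw [mul_div_cancel_left₀ _ (hx i).ne', mul_div_cancel_left₀ _ (hx j).ne'] at h2
        exact ⟨by exact_mod_cast h4, by exact_mod_cast h2⟩
    have hj1 : ∀ g ∈ bundle A j, 1 ≤ u j g := by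
      intro g hg
      by_contra hcon
      have e0 : u j g = 0 := by have := hu0 j g; omega
      obtain ⟨i', hi'⟩ := hw g
      have hne' : i' ≠ j := by
        rintro rfl
        rw [hu, e0] at hi'
        simp at hi'
      have ha : 0 < u i' g := by
        rcases lt_or_eq_of_le (hu0 i' g) with h | h
        · exact h
        · rw [hu, ← h] at hi'
          simp at hi'
      have hW : 0 ≤ ∑ h ∈ bundle A j, u j h := Finset.sum_nonneg fun g _ => hu0 j g
      rcases hT i' hne' g hg with h | h
      · rw [e0] at h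
        nlinarith
      · have := h.2
        omega
    have hVn : 0 ≤ ∑ h ∈ bundle A i, u i h := Finset.sum_nonneg fun g _ => hu0 i g
    have hk := pairkey (bundle A j) (u i) (u j) (∑ h ∈ bundle A i, u i h) hVn
      (by
        rcases hty i with h | h
        · exact Or.inl fun g _ => h g
        · exact Or.inr fun g _ => h g)
      (fun g hg => ⟨hj1 g hg, hu3 j g⟩)
      (fun g hg => by
        rcases hT i hij g hg with h | h
        · exact h.le
        · exact h.1.le)
      (fun g hg hlt => by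
        rcases hT i hij g hg with h | h
        · exact h
        · exact absurd h.2 (not_le.2 hlt))
    have hk' : (((bundle A j).card : ℝ) - 1) * ((∑ g ∈ bundle A j, u i g : ℤ) : ℝ) ≤
        ((bundle A j).card : ℝ) * ((∑ g ∈ bundle A i, u i g : ℤ) : ℝ) := by
      exact_mod_cast hk
    unfold own
    rw [hownu i, hownu i]
    have := mul_le_mul_of_nonneg_left hk' (hx i).le
    nlinarith

lemma best_pareto {n m : ℕ} {v : Fin n → Fin m → ℝ} {x : Fin n → ℝ} (hv : ∀ i g, 0 ≤ v i g)
    {A : Fin m → Fin n} (hA : Best v x A) : Pareto v A := by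
  intro B hB i
  by_contra hne
  have hprod : ∏ i, own v A i < ∏ i, own v B i := by
    refine Finset.prod_lt_prod (fun i _ => own_pos hv hA i) (fun k _ => hB k)
      ⟨i, Finset.mem_univ _, lt_of_le_of_ne (hB i) (Ne.symm hne)⟩
  rcases hA.2 B with h | h
  · linarith
  · linarith [h.1]

lemma exists_best {n m : ℕ} {v : Fin n → Fin m → ℝ} {x : Fin n → ℝ}
    (h0 : ∃ A : Fin m → Fin n, 0 < ∏ i, own v A i) : ∃ A : Fin m → Fin n, Best v x A := by
  classical
  obtain ⟨B, hB⟩ := h0
  have : Nonempty (Fin m → Fin n) := ⟨B⟩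
  obtain ⟨A₀, hA₀⟩ := Finite.exists_max (fun A : Fin m → Fin n => ∏ i, own v A i)
  obtain ⟨A, hA, hmax⟩ := Finset.exists_max_image
    ((univ : Finset (Fin m → Fin n)).filter (fun A => ∏ i, own v A i = ∏ i, own v A₀ i))
    (fun A => ∑ i, own v A i / x i) ⟨A₀, by simp⟩
  have hAA : ∏ i, own v A i = ∏ i, own v A₀ i := (Finset.mem_filter.1 hA).2
  refine ⟨A, ?_, ?_⟩
  · rw [hAA]
    exact lt_of_lt_of_le hB (hA₀ B)
  · intro B
    rcases lt_or_eq_of_le (hA₀ B) with h | h
    · left
      rw [hAA]
      exact h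
    · right
      refine ⟨by rw [hAA]; exact h, hmax B ?_⟩
      rw [Finset.mem_filter]
      exact ⟨Finset.mem_univ _, h⟩

theorem result (n m : ℕ) (hn : 0 < n) (v : Fin n → Fin m → ℝ) (x : Fin n → ℝ) (hx : ∀ i, 0 < x i)
    (hv : ∀ i, (∀ g, v i g = x i ∨ v i g = 2 * x i ∨ v i g = 3 * x i) ∨
      ∀ g, v i g = 0 ∨ v i g = x i ∨ v i g = 2 * x i) :
    (∃ A : Fin m → Fin n, IsEFR v A ∧ Pareto v A) ∧
      ((∃ A : Fin m → Fin n, 0 < ∏ i, own v A i) → ∃ A : Fin m → Fin n, Best v x A) ∧
      ((∀ g, ∃ i, 0 < v i g) → ∀ A : Fin m → Fin n, Best v x A → IsEFR v A ∧ Pareto v A) := by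
  have hv0 : ∀ i g, 0 ≤ v i g := by
    intro i g
    have hi := hx i
    rcases hv i with h | h
    · rcases h g with h | h | h <;> rw [h] <;> linarith
    · rcases h g with h | h | h <;> rw [h] <;> linarith
  exact ⟨efr_exists hn hx hv, fun h => exists_best h,
    fun hw _ hA => ⟨best_efr hx hv hw hA, best_pareto hv0 hA⟩⟩

end Pool.Agent.Results.MP_c4077f_co.ThreeValues
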